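import Pool.Agent.helper56.P2.SpecU

/-!
# Row p2:UGRF (local graphs)
-/

set_option autoImplicit false

namespace Pool.Agent.P2U

open MeasureTheory Set Filter Topology Metric Complex
open scoped ENNReal ContDiff

theorem UGRF_open (a r : ℝ) : IsOpen (TB a r) :=
  (isOpen_lt (continuous_fst.norm) continuous_const).inter
    (isOpen_lt (continuous_snd.norm) continuous_const)

/-- the derivative of `(x, w) ↦ (G (x, w), w)` is invertible -/
noncomputable def UGRF_equiv (L : ℂ × ℂ →L[ℂ] ℂ) (hL : L (1, 0) ≠ 0) : (ℂ × ℂ) ≃L[ℂ] (ℂ × ℂ) :=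
  ContinuousLinearEquiv.equivOfInverse (L.prod (ContinuousLinearMap.snd ℂ ℂ ℂ))
    (((L (1, 0))⁻¹ • (ContinuousLinearMap.fst ℂ ℂ ℂ - L (0, 1) • ContinuousLinearMap.snd ℂ ℂ ℂ)).prod
      (ContinuousLinearMap.snd ℂ ℂ ℂ))
    (by
      rintro ⟨x, w⟩
      have h1 : L (x, w) = x * L (1, 0) + w * L (0, 1) := by
        have h2 : ((x, w) : ℂ × ℂ) = x • ((1, 0) : ℂ × ℂ) + w • ((0, 1) : ℂ × ℂ) := by
          simp
        rw [h2, map_add, map_smul, map_smul, smul_eq_mul, smul_eq_mul]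
      refine Prod.ext ?_ rfl
      show (L (1, 0))⁻¹ * (L (x, w) - L (0, 1) * w) = x
      rw [h1]
      field_simp
      ring)
    (by
      rintro ⟨y, w⟩
      refine Prod.ext ?_ rfl
      show L ((L (1, 0))⁻¹ * (y - L (0, 1) * w), w) = y
      have h1 : ∀ x : ℂ, L (x, w) = x * L (1, 0) + w * L (0, 1) := by
        intro x
        have h2 : ((x, w) : ℂ × ℂ) = x • ((1, 0) : ℂ × ℂ) + w • ((0, 1) : ℂ × ℂ) := by
          simp
        rw [h2, map_add, map_smul, map_smul, smul_eq_mul, smul_eq_mul]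
      rw [h1]
      field_simp
      ring)

theorem UGRF : UGRF_stmt := by
  intro P Q r hH q1 hq1 hcx ε0 hε0
  have hTB : IsOpen (TB 2 r) := UGRF_open 2 r
  have hPd : HasFDerivAt P (fderiv ℂ P q1) q1 := (hH.hP q1 hq1).differentiableAt.hasFDerivAt
  have hQd : HasFDerivAt Q (fderiv ℂ Q q1) q1 := (hH.hQ q1 hq1).differentiableAt.hasFDerivAt
  set G : ℂ × ℂ → ℂ := fun p => P p * Q q1 - Q p * P q1 with hG
  have hGan : AnalyticAt ℂ G q1 :=
    ((hH.hP q1 hq1).mul analyticAt_const).sub ((hH.hQ q1 hq1).mul analyticAt_const)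
  have hGs : HasStrictFDerivAt G (fderiv ℂ G q1) q1 := hGan.hasStrictFDerivAt
  have hGf : fderiv ℂ G q1 = Q q1 • fderiv ℂ P q1 - P q1 • fderiv ℂ Q q1 :=
    ((hPd.mul_const (Q q1)).sub (hQd.mul_const (P q1))).fderiv
  have hL : fderiv ℂ G q1 (1, 0) ≠ 0 := by
    rw [hGf]
    exact hcx
  have hG0 : G q1 = 0 := by
    show P q1 * Q q1 - Q q1 * P q1 = 0
    ring
  set Ψ : ℂ × ℂ → ℂ × ℂ := fun p => (G p, p.2) with hΨ
  have hΨs : HasStrictFDerivAt Ψ
      ((UGRF_equiv (fderiv ℂ G q1) hL : (ℂ × ℂ) ≃L[ℂ] (ℂ × ℂ)) : ℂ × ℂ →L[ℂ] ℂ × ℂ) q1 :=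
    hGs.prodMk (ContinuousLinearMap.snd ℂ ℂ ℂ).hasStrictFDerivAt
  have hΨc : ContDiffAt ℂ 1 Ψ q1 := (hGan.contDiffAt).prodMk contDiffAt_snd
  set e : OpenPartialHomeomorph (ℂ × ℂ) (ℂ × ℂ) :=
    hΨc.toOpenPartialHomeomorph Ψ hΨs.hasFDerivAt (by norm_num) with he
  have hecoe : ∀ p, e p = Ψ p := fun p => rfl
  have hsrc : q1 ∈ e.source := hΨc.mem_toOpenPartialHomeomorph_source hΨs.hasFDerivAt (by norm_num)
  have hΨq : Ψ q1 = (0, q1.2) := by
    show (G q1, q1.2) = (0, q1.2)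
    rw [hG0]
  have htgt : ((0, q1.2) : ℂ × ℂ) ∈ e.target := by
    rw [← hΨq]
    exact e.map_source hsrc
  have hinv : e.symm (0, q1.2) = q1 := by
    rw [← hΨq]
    exact e.left_inv hsrc
  have hloc : ContDiffAt ℂ 1 e.symm (0, q1.2) := by
    have h1 := hΨc.to_localInverse hΨs.hasFDerivAt (by norm_num)
    rw [hΨq] at h1
    exact h1
  -- the choice of `ε`
  obtain ⟨ε, hε, hεsub⟩ : ∃ ε : ℝ, 0 < ε ∧ ball q1 ε ⊆ e.source ∩ TB 2 r :=
    Metric.isOpen_iff.1 (e.open_source.inter hTB) q1 ⟨hsrc, hq1⟩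
  set ε1 : ℝ := min ε ε0 with hε1
  have hε10 : 0 < ε1 := lt_min hε hε0
  have hsub1 : ∀ x ∈ ball q1.1 ε1, ∀ w ∈ ball q1.2 ε1, ((x, w) : ℂ × ℂ) ∈ e.source ∩ TB 2 r := by
    intro x hx w hw
    apply hεsub
    rw [mem_ball, Prod.dist_eq]
    exact max_lt (lt_of_lt_of_le hx (min_le_left _ _)) (lt_of_lt_of_le hw (min_le_left _ _))
  -- the choice of `δ`
  have hcw : ContinuousAt (fun w : ℂ => ((0, w) : ℂ × ℂ)) q1.2 :=
    (continuous_const.prodMk continuous_id).continuousAt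
  have ev1 : ∀ᶠ w in 𝓝 q1.2, ((0, w) : ℂ × ℂ) ∈ e.target :=
    hcw.eventually (e.open_target.mem_nhds htgt)
  have ev2 : ∀ᶠ w in 𝓝 q1.2, e.symm (0, w) ∈ ball q1.1 ε1 ×ˢ ball q1.2 ε1 := by
    have h1 : ContinuousAt (fun w : ℂ => e.symm (0, w)) q1.2 :=
      ContinuousAt.comp (f := fun w : ℂ => ((0, w) : ℂ × ℂ)) (g := e.symm) hloc.continuousAt hcw
    apply h1.eventually_mem
    show ball q1.1 ε1 ×ˢ ball q1.2 ε1 ∈ 𝓝 (e.symm (0, q1.2))
    rw [hinv]
    exact (isOpen_ball.prod isOpen_ball).mem_nhds ⟨mem_ball_self hε10, mem_ball_self hε10⟩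
  have ev3 : ∀ᶠ w in 𝓝 q1.2, DifferentiableAt ℂ e.symm (0, w) := by
    have h1 : ∀ᶠ y in 𝓝 ((0, q1.2) : ℂ × ℂ), ContDiffAt ℂ 1 e.symm y := hloc.eventually (by simp)
    exact (hcw.eventually h1).mono fun w hw => hw.differentiableAt (by norm_num)
  obtain ⟨δ, hδ, hδsub⟩ := Metric.eventually_nhds_iff_ball.1 (ev1.and (ev2.and ev3))
  set δ1 : ℝ := min δ ε1 with hδ1
  have hδ10 : 0 < δ1 := lt_min hδ hε10
  have hδb : ∀ w ∈ ball q1.2 δ1, w ∈ ball q1.2 δ := fun w hw =>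
    mem_ball.2 (lt_of_lt_of_le (mem_ball.1 hw) (min_le_left _ _))
  have hδe : ∀ w ∈ ball q1.2 δ1, w ∈ ball q1.2 ε1 := fun w hw =>
    mem_ball.2 (lt_of_lt_of_le (mem_ball.1 hw) (min_le_right _ _))
  refine ⟨ε1, δ1, hε10, min_le_right _ _, hδ10, fun w => (e.symm (0, w)).1, ?_, ?_, ?_, ?_, ?_⟩
  · intro w hw
    have h1 := (hsub1 q1.1 (mem_ball_self hε10) w (hδe w hw)).2
    rw [mem_ball_zero_iff]
    exact h1.2
  · intro w hw
    have h1 := (hδsub w (hδb w hw)).2.2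
    have h2 : DifferentiableAt ℂ (fun w : ℂ => e.symm (0, w)) w :=
      DifferentiableAt.comp (f := fun w : ℂ => ((0, w) : ℂ × ℂ)) (g := e.symm) w h1
        ((differentiableAt_const _).prodMk differentiableAt_id)
    exact h2.fst.differentiableWithinAt
  · show (e.symm (0, q1.2)).1 = q1.1
    rw [hinv]
  · intro w hw
    exact (hδsub w (hδb w hw)).2.1.1
  · intro x hx w hw
    have hmem := (hsub1 x hx w (hδe w hw)).1
    have ht := (hδsub w (hδb w hw)).1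
    constructor
    · intro h
      have h1 : e (x, w) = (0, w) := by
        rw [hecoe]
        show (P (x, w) * Q q1 - Q (x, w) * P q1, w) = (0, w)
        rw [h, sub_self]
      have h2 := e.left_inv hmem
      rw [h1] at h2
      show x = (e.symm (0, w)).1
      rw [h2]
    · intro h
      have h1 : e (e.symm (0, w)) = (0, w) := e.right_inv ht
      rw [hecoe] at h1
      have h2 : (e.symm (0, w)).2 = w := congrArg Prod.snd h1
      have h3 : G (e.symm (0, w)) = 0 := congrArg Prod.fst h1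
      have h4 : e.symm (0, w) = (x, w) := Prod.ext h.symm h2
      rw [h4] at h3
      exact sub_eq_zero.1 h3

end Pool.Agent.P2U
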