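import Pool.Agent.helper37.P2.SpecD

set_option autoImplicit false

/-!
# Project P2 (MP_063734_an), row EDG: a band is an edge
-/

open scoped ContDiff Topology
open MeasureTheory Filter Set Metric MvPolynomial Pool.Agent.helper37.QA

namespace Pool.Agent.P2

theorem EDG_mem {a b : ℂ} (ha : ‖a‖ < 1) (hb : ‖b‖ < 1) : (a, b) ∈ ball (0 : ℂ × ℂ) 1 := by
  rw [mem_ball_zero_iff, Prod.norm_def]
  exact max_lt ha hb

theorem EDG_fst {p : ℂ × ℂ} (hp : p ∈ ball (0 : ℂ × ℂ) 1) : ‖p.1‖ < 1 ∧ ‖p.2‖ < 1 := by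
  rw [mem_ball_zero_iff, Prod.norm_def, max_lt_iff] at hp
  exact hp

theorem EDG_slice {X : ℂ × ℂ → ℂ} (hX : DifferentiableOn ℂ X (ball 0 1)) {ζ : ℂ} (hζ : ‖ζ‖ < 1) :
    DifferentiableOn ℂ (fun v => X (ζ, v)) (ball 0 1) := by
  refine hX.comp (t := ball 0 1) (f := fun v : ℂ => (ζ, v)) ?_ ?_
  · exact (differentiable_const ζ).differentiableOn.prodMk differentiableOn_id
  · intro v hv
    exact EDG_mem hζ (mem_ball_zero_iff.1 hv)

theorem EDG_slice0 {X : ℂ × ℂ → ℂ} (hX : DifferentiableOn ℂ X (ball 0 1)) :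
    DifferentiableOn ℂ (fun v => X (v, 0)) (ball 0 1) := by
  refine hX.comp (t := ball 0 1) (f := fun v : ℂ => (v, (0 : ℂ))) ?_ ?_
  · exact differentiableOn_id.prodMk (differentiable_const (0 : ℂ)).differentiableOn
  · intro v hv
    exact EDG_mem (mem_ball_zero_iff.1 hv) (by simp)

theorem EDG_sch (F : ℂ → ℂ) (v0 : ℂ) (r M : ℝ) (hF : DifferentiableOn ℂ F (ball v0 r))
    (hM : ∀ v ∈ ball v0 r, ‖F v - F v0‖ < M) (v : ℂ) (hv : v ∈ ball v0 r) :
    ‖F v - F v0‖ ≤ M / r * ‖v - v0‖ := by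
  have h := Complex.dist_le_div_mul_dist_of_mapsTo_ball (R₂ := M) hF (fun w hw => by
    rw [mem_closedBall, dist_eq_norm]
    exact (hM w hw).le) hv
  rw [dist_eq_norm, dist_eq_norm] at h
  exact h

theorem EDG_div {E : Type*} [NormedAddCommGroup E] [NormedSpace ℂ E] {F : E → ℂ} {S : Set E}
    (hF : DifferentiableOn ℂ F S) (a : ℂ) : DifferentiableOn ℂ (fun x => F x / a) S := by
  simp only [div_eq_mul_inv]
  exact hF.mul_const _

theorem EDG_smul {d : ℕ} (f : Endo 2 d) (n : ℕ) (a : ℂ) (x : E3) :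
    It f n (a • x) = a ^ (d ^ n) • It f n x := pmap_smul (iter_hom f.hom n) a x

theorem EDG_add {d : ℕ} (f : Endo 2 d) (k n : ℕ) (x : E3) :
    It f (k + n) x = It f n (It f k x) := by
  rw [Nat.add_comm]
  exact pmap_iter_add f.F n k x

theorem EDG (hLAT : LAT_stmt) (hUNI : UNI_stmt) (hHFP : HFP_stmt) : EDG_stmt := by
  intro d f V0 hV0 κ κ' s s' hκ hκ1 hκ' hκκ hs hs' hss Z k n z hZ hz ι c c' g γ γb ξ ι2 c2 c2' g2 γ2
    γ2b ξ2 hc hc2' hI hξ hgξ hc' hγb hClo hI2 hξ2 hg2 hc2 hγ2b hClo2 hBP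
  obtain ⟨-, -, -, -, hL⟩ := hLAT
  obtain ⟨gd, gb, γd, gI⟩ := hI
  obtain ⟨g2d, g2b, γ2d, g2I⟩ := hI2
  have hκc : (κ : ℂ) ≠ 0 := by exact_mod_cast hκ.ne'
  have hκc' : (κ' : ℂ) ≠ 0 := by exact_mod_cast hκ'.ne'
  have hsc : (s : ℂ) ≠ 0 := by exact_mod_cast hs.ne'
  have hsc' : (s' : ℂ) ≠ 0 := by exact_mod_cast hs'.ne'
  have hnκ : ‖(κ : ℂ)‖ = κ := by rw [Complex.norm_real, Real.norm_of_nonneg hκ.le]
  have hnκ' : ‖(κ' : ℂ)‖ = κ' := by rw [Complex.norm_real, Real.norm_of_nonneg hκ'.le]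
  have hns : ‖(s : ℂ)‖ = s := by rw [Complex.norm_real, Real.norm_of_nonneg hs.le]
  have hns' : ‖(s' : ℂ)‖ = s' := by rw [Complex.norm_real, Real.norm_of_nonneg hs'.le]
  have hq : κ' / κ ≤ 1 / 4 := by
    rw [div_le_iff₀ hκ]
    linarith
  have hq0 : 0 < κ' / κ := div_pos hκ' hκ
  have hsq : s' / s ≤ κ' / κ / 256 := by
    rw [div_le_iff₀ hs]
    calc s' ≤ s * κ' / (256 * κ) := hss
      _ = κ' / κ / 256 * s := by
        field_simp
  have hs0 : 0 < s' / s := div_pos hs' hs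
  have hξ1 : ξ ∈ ball (0 : ℂ) 1 := by rw [mem_ball_zero_iff]; linarith
  have hξ21 : ξ2 ∈ ball (0 : ℂ) 1 := by rw [mem_ball_zero_iff]; linarith
  -- the hypothesis of the band
  obtain ⟨a1, ha1, e1⟩ := gI ξ hξ1
  obtain ⟨a2, ha2, e2⟩ := g2I ξ2 hξ21
  have hband : ∃ x y a : ℂ, a ≠ 0 ∧ It f n (gp ι c κ γ (ξ, 0)) = a • cht ι2 x y ∧
      ‖x - c2'‖ ≤ κ' / 2 := by
    refine ⟨c2 + κ * ξ2, γ2 ξ2 + 0, (a1 ^ (d ^ n))⁻¹ * a2, ?_, ?_, ?_⟩
    · exact mul_ne_zero (inv_ne_zero (pow_ne_zero _ ha1)) ha2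
    · rw [hg2, EDG_add, ← hgξ, e1, EDG_smul] at e2
      calc It f n (gp ι c κ γ (ξ, 0))
          = (a1 ^ (d ^ n))⁻¹ • (a1 ^ (d ^ n) • It f n (gp ι c κ γ (ξ, 0))) := by
            rw [smul_smul, inv_mul_cancel₀ (pow_ne_zero _ ha1), one_smul]
        _ = ((a1 ^ (d ^ n))⁻¹ * a2) • cht ι2 (c2 + κ * ξ2) (γ2 ξ2 + 0) := by
            rw [e2, smul_smul]
            rfl
    · rw [norm_sub_rev]
      linarith
  obtain ⟨X, V, hX, hV, ⟨ζ0, hζ0, hXζ0⟩, hXn, hp⟩ := hBP ι2 c2' hc2' hband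
  -- the base point
  have hz0 : (ζ0, (0 : ℂ)) ∈ ball (0 : ℂ × ℂ) 1 := EDG_mem (mem_ball_zero_iff.1 hζ0) (by simp)
  obtain ⟨x0, y0, a0, ha0, e0, -⟩ := hband
  have hbase : c2' + κ' * ζ0 = c2 + κ * ξ2 := by
    obtain ⟨-, -, b, hb, eb⟩ := hp _ hz0
    have eb' : It f n (gp ι c κ γ (ξ, 0)) = b • cht ι2 (c2' + κ' * ζ0) (V (ζ0, 0)) := by
      rw [← eb, hXζ0, mul_zero]
    have e2' := e2
    rw [hg2, EDG_add, ← hgξ, e1, EDG_smul, eb', smul_smul] at e2'
    exact (hL ι2 _ _ _ _ _ _ (mul_ne_zero (pow_ne_zero _ ha1) hb) ha2 e2').2.1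
  -- the affine map
  set φ : ℂ → ℂ := fun ζ => (c2' - c2 + κ' * ζ) / κ with hφ
  have hφd : Differentiable ℂ φ := by
    rw [hφ]
    exact ((differentiable_const _).add ((differentiable_const _).mul differentiable_id)).div_const _
  have hφn : ∀ ζ : ℂ, ‖ζ‖ < 1 → ‖φ ζ‖ < 1 / 2 := by
    intro ζ hζ
    have e : φ ζ = ξ2 + ((c2' - (c2 + κ * ξ2)) + κ' * ζ) / κ := by
      rw [hφ]
      field_simp
      ring
    rw [e]
    have h1 : ‖((c2' - (c2 + κ * ξ2)) + κ' * ζ) / κ‖ ≤ (κ' / 64 + κ') / κ := by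
      rw [norm_div, hnκ]
      refine div_le_div_of_nonneg_right ?_ hκ.le
      refine (norm_add_le _ _).trans (add_le_add hc2 ?_)
      rw [norm_mul, hnκ']
      nlinarith
    have h2 : (κ' / 64 + κ') / κ = 65 / 64 * (κ' / κ) := by ring
    have h3 := norm_add_le ξ2 (((c2' - (c2 + κ * ξ2)) + κ' * ζ) / κ)
    rw [h2] at h1
    linarith
  have hφe : ∀ ζ, c2 + κ * φ ζ = c2' + κ' * ζ := by
    intro ζ
    rw [hφ]
    field_simp
    ring
  have hφ0 : φ ζ0 = ξ2 := by
    have e : φ ζ0 = (c2' + κ' * ζ0 - c2) / κ := by rw [hφ]; ring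
    rw [e, hbase]
    field_simp
    ring
  -- step 1: the two islands
  have hVγ : ∀ ζ ∈ ball (0 : ℂ) 1, V (ζ, 0) = γ2 (φ ζ) := by
    obtain ⟨hU, -⟩ := hUNI d f V0 Z (k + n) ι2 c2' κ' hV0 hZ hκ'
    have hI1 : Isl f Z (k + n) ι2 c2' κ' (fun ζ => g (X (ζ, 0))) (fun ζ => V (ζ, 0)) := by
      have hm : ∀ ζ ∈ ball (0 : ℂ) 1, X (ζ, 0) ∈ ball (0 : ℂ) 1 := by
        intro ζ hζ
        have := (hp _ (EDG_mem (mem_ball_zero_iff.1 hζ) (by simp : ‖(0 : ℂ)‖ < 1))).1
        rw [mem_ball_zero_iff]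
        linarith
      refine ⟨gd.comp (EDG_slice0 hX) hm, fun ζ hζ => gb _ (hm ζ hζ), EDG_slice0 hV, ?_⟩
      intro ζ hζ
      obtain ⟨a, ha, ea⟩ := gI _ (hm ζ hζ)
      obtain ⟨-, -, b, hb, eb⟩ := hp _ (EDG_mem (mem_ball_zero_iff.1 hζ) (by simp : ‖(0 : ℂ)‖ < 1))
      refine ⟨a ^ (d ^ n) * b, mul_ne_zero (pow_ne_zero _ ha) hb, ?_⟩
      have eb' : It f n (gp ι c κ γ (X (ζ, 0), 0)) = b • cht ι2 (c2' + κ' * ζ) (V (ζ, 0)) := by
        rw [← eb, mul_zero]
      rw [EDG_add, ea, EDG_smul, eb', smul_smul]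
      simp only [gp, add_zero]
    have hI2' : Isl f Z (k + n) ι2 c2' κ' (fun ζ => g2 (φ ζ)) (fun ζ => γ2 (φ ζ)) := by
      have hm : ∀ ζ ∈ ball (0 : ℂ) 1, φ ζ ∈ ball (0 : ℂ) 1 := by
        intro ζ hζ
        have := hφn ζ (mem_ball_zero_iff.1 hζ)
        rw [mem_ball_zero_iff]
        linarith
      refine ⟨g2d.comp hφd.differentiableOn hm, fun ζ hζ => g2b _ (hm ζ hζ),
        γ2d.comp hφd.differentiableOn hm, ?_⟩
      intro ζ hζ
      obtain ⟨a, ha, ea⟩ := g2I _ (hm ζ hζ)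
      refine ⟨a, ha, ?_⟩
      rw [ea]
      simp only [gp, add_zero, hφe]
    have h3 := hU _ _ _ _ ζ0 ζ0 hI1 hI2' hζ0 hζ0 (by
      rw [hXζ0, hφ0, hgξ, hg2])
    intro ζ hζ
    exact h3.2.2 hζ
  -- step 2: the fixed point
  have hsub : ∀ u : ℂ, u ∈ ball ξ (1 / 4) → ‖u‖ ≤ 1 / 2 := by
    intro u hu
    rw [mem_ball, dist_eq_norm] at hu
    have := norm_add_le (u - ξ) ξ
    rw [sub_add_cancel] at this
    linarith
  have hδ : ∀ (u w : ℂ), u ∈ ball ξ (1 / 4) → ‖w‖ < 1 →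
      ‖(γb u - γ u + s' * w) / s‖ ≤ 17 / 16 * (s' / s) := by
    intro u w hu hw
    rw [norm_div, hns, div_le_iff₀ hs]
    have h1 := hClo u (by rw [mem_closedBall_zero_iff]; exact hsub u hu)
    have h2 := norm_add_le (γb u - γ u) (s' * w)
    rw [norm_mul, hns', norm_sub_rev] at h2
    have h3 : s' * ‖w‖ ≤ s' := by nlinarith
    have h4 : 17 / 16 * (s' / s) * s = 17 / 16 * s' := by field_simp
    rw [h4]
    linarith
  have hδ1 : 17 / 16 * (s' / s) < 1 / 4 := by linarith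
  have hγu : DifferentiableOn ℂ (fun u => γb u - γ u) (ball ξ (1 / 4)) := by
    have hs1 : ball ξ (1 / 4 : ℝ) ⊆ ball 0 1 := by
      intro u hu
      have := hsub u hu
      rw [mem_ball_zero_iff]
      linarith
    exact (hγb.mono hs1).sub (γd.mono hs1)
  have hXlip : ∀ ζ v v' : ℂ, ‖ζ‖ < 1 → ‖v‖ < 1 / 4 → ‖v'‖ < 1 / 4 →
      ‖X (ζ, v) - X (ζ, v')‖ ≤ 2 * ‖v - v'‖ := by
    intro ζ v v' hζ hv hv'
    have hin : ∀ w ∈ ball v' (1 / 2 : ℝ), ‖w‖ < 1 := by
      intro w hw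
      rw [mem_ball, dist_eq_norm] at hw
      have := norm_add_le (w - v') v'
      rw [sub_add_cancel] at this
      linarith
    have h := EDG_sch (fun v => X (ζ, v)) v' (1 / 2) 1
      ((EDG_slice hX hζ).mono fun w hw => mem_ball_zero_iff.2 (hin w hw)) (fun w hw => by
        have h1 := (hp _ (EDG_mem hζ (hin w hw))).1
        have h2 := (hp _ (EDG_mem hζ (show ‖v'‖ < 1 by linarith))).1
        have h3 := norm_sub_le (X (ζ, w)) (X (ζ, v'))
        linarith) v (by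
        rw [mem_ball, dist_eq_norm]
        have := norm_sub_le v v'
        linarith)
    have e : (1 : ℝ) / (1 / 2) = 2 := by norm_num
    rw [e] at h
    exact h
  obtain ⟨u, hud, hu⟩ := hHFP ξ (κ' / κ / 32) (1 / 4)
    (fun q => X (q.1.1, (γb q.2 - γ q.2 + s' * q.1.2) / s)) (by positivity) (by linarith) (by
      refine hX.comp (t := ball 0 1)
        (f := fun q : (ℂ × ℂ) × ℂ => (q.1.1, (γb q.2 - γ q.2 + s' * q.1.2) / s)) ?_ ?_
      · refine DifferentiableOn.prodMk ?_ ?_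
        · exact (differentiable_fst.fst).differentiableOn
        · refine EDG_div ?_ _
          refine DifferentiableOn.add ?_ ?_
          · exact hγu.comp (f := fun q : (ℂ × ℂ) × ℂ => q.2) differentiable_snd.differentiableOn
              fun q hq => (mem_prod.1 hq).2
          · exact ((differentiable_const _).mul differentiable_fst.snd).differentiableOn
      · intro q hq
        obtain ⟨h1, h2⟩ := mem_prod.1 hq
        obtain ⟨h3, h4⟩ := EDG_fst h1
        have h5 := hδ q.2 q.1.2 h2 h4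
        exact EDG_mem h3 (by linarith)) (by
      intro p hpp v hv
      obtain ⟨h3, h4⟩ := EDG_fst hpp
      have hv4 : v ∈ ball ξ (1 / 4) := by
        rw [mem_closedBall, dist_eq_norm] at hv
        rw [mem_ball, dist_eq_norm]
        linarith
      have h5 := hδ v p.2 hv4 h4
      have h6 := hXlip p.1 ((γb v - γ v + s' * p.2) / s) 0 h3 (by linarith) (by simp)
      have h7 := hXn p.1 (mem_ball_zero_iff.2 h3)
      have h8 := norm_add_le (X (p.1, (γb v - γ v + s' * p.2) / s) - X (p.1, 0)) (X (p.1, 0) - ξ)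
      rw [sub_add_sub_cancel] at h8
      rw [sub_zero] at h6
      rw [mem_closedBall, dist_eq_norm]
      have e : κ' / (64 * κ) = κ' / κ / 64 := by field_simp
      rw [e] at h7
      linarith) (by
      intro p hpp v hv v' hv'
      obtain ⟨h3, h4⟩ := EDG_fst hpp
      rw [mem_closedBall, dist_eq_norm] at hv hv'
      have hin : ∀ w ∈ ball v' (1 / 8 : ℝ), w ∈ ball ξ (1 / 4) := by
        intro w hw
        rw [mem_ball, dist_eq_norm] at hw ⊢
        have := norm_add_le (w - v') (v' - ξ)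
        rw [sub_add_sub_cancel] at this
        linarith
      have hv'4 : v' ∈ ball v' (1 / 8 : ℝ) := mem_ball_self (by norm_num)
      have hdv : DifferentiableOn ℂ (fun w => (γb w - γ w + s' * p.2) / s) (ball v' (1 / 8)) :=
        EDG_div ((hγu.mono hin).add_const _) _
      have h := EDG_sch (fun w => X (p.1, (γb w - γ w + s' * p.2) / s)) v' (1 / 8) (1 / 16)
        (DifferentiableOn.comp (g := fun v => X (p.1, v)) (t := ball 0 1) (EDG_slice hX h3) hdv
          fun w hw => by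
          have h5 := hδ w p.2 (hin w hw) h4
          rw [mem_ball_zero_iff]
          linarith) (fun w hw => by
          have h5 := hδ w p.2 (hin w hw) h4
          have h6 := hδ v' p.2 (hin v' hv'4) h4
          have h7 := hXlip p.1 _ _ h3 (lt_of_le_of_lt h5 hδ1) (lt_of_le_of_lt h6 hδ1)
          have h8 := norm_sub_le ((γb w - γ w + s' * p.2) / s) ((γb v' - γ v' + s' * p.2) / s)
          refine lt_of_le_of_lt h7 ?_
          linarith) v (by
          rw [mem_ball, dist_eq_norm]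
          have := norm_sub_le (v - ξ) (v' - ξ)
          rw [sub_sub_sub_cancel_right] at this
          linarith)
      have e : (1 / 16 : ℝ) / (1 / 8) = 1 / 2 := by norm_num
      rw [e] at h
      exact h)
  -- step 3: the edge
  have huc : ∀ p ∈ ball (0 : ℂ × ℂ) 1, u p ∈ ball ξ (1 / 4 : ℝ) := by
    intro p hpp
    have h1 := (hu p hpp).1
    rw [mem_closedBall] at h1
    rw [mem_ball]
    linarith
  set v : ℂ × ℂ → ℂ := fun p => (γb (u p) - γ (u p) + s' * p.2) / s with hv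
  have hvd : DifferentiableOn ℂ v (ball 0 1) := by
    rw [hv]
    refine EDG_div ?_ _
    refine DifferentiableOn.add ?_ ?_
    · exact hγu.comp hud huc
    · exact ((differentiable_const _).mul differentiable_snd).differentiableOn
  have hvn : ∀ p ∈ ball (0 : ℂ × ℂ) 1, ‖v p‖ ≤ 17 / 16 * (s' / s) := fun p hpp =>
    hδ (u p) p.2 (huc p hpp) (EDG_fst hpp).2
  have hqm : ∀ p ∈ ball (0 : ℂ × ℂ) 1, (p.1, v p) ∈ ball (0 : ℂ × ℂ) 1 := fun p hpp =>
    EDG_mem (EDG_fst hpp).1 (by have := hvn p hpp; linarith)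
  refine ⟨fun p => (κ * u p + c - c') / κ', fun p => (V (p.1, v p) - γ2b (φ p.1)) / s', ?_, ?_, ?_⟩
  · refine EDG_div ?_ _
    exact (((differentiable_const _).differentiableOn.mul hud).add_const _).sub_const _
  · refine EDG_div ?_ _
    refine DifferentiableOn.sub ?_ ?_
    · exact hV.comp (f := fun p : ℂ × ℂ => (p.1, v p)) (differentiable_fst.differentiableOn.prodMk hvd) hqm
    · refine hγ2b.comp (f := fun p : ℂ × ℂ => φ p.1) (hφd.comp differentiable_fst).differentiableOn ?_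
      intro p hpp
      have := hφn p.1 (EDG_fst hpp).1
      rw [mem_ball_zero_iff]
      linarith
  · intro p hpp
    obtain ⟨h3, h4⟩ := EDG_fst hpp
    obtain ⟨hu1, hu2⟩ := hu p hpp
    rw [mem_closedBall, dist_eq_norm] at hu1
    refine ⟨?_, ?_, ?_⟩
    · have e : (κ * u p + c - c') / κ' = (κ * (u p - ξ) - (c' - (c + κ * ξ))) / κ' := by ring
      change ‖(κ * u p + c - c') / κ'‖ ≤ 1 / 4
      rw [e, norm_div, hnκ', div_le_iff₀ hκ']
      have h5 := norm_sub_le (κ * (u p - ξ)) (c' - (c + κ * ξ))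
      rw [norm_mul, hnκ] at h5
      have h6 : κ * ‖u p - ξ‖ ≤ κ * (κ' / κ / 32) := mul_le_mul_of_nonneg_left hu1 hκ.le
      have h7 : κ * (κ' / κ / 32) = κ' / 32 := by field_simp
      rw [h7] at h6
      linarith
    · change ‖(V (p.1, v p) - γ2b (φ p.1)) / s'‖ ≤ 1 / 4
      rw [norm_div, hns', div_le_iff₀ hs']
      have h5 := EDG_sch (fun w => V (p.1, w)) 0 1 (s / 8) (EDG_slice hV h3) (fun w hw => by
        have := (hp _ (EDG_mem h3 (mem_ball_zero_iff.1 hw))).2.1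
        linarith) (v p) (by
        rw [mem_ball_zero_iff]
        have := hvn p hpp
        linarith)
      rw [sub_zero, div_one] at h5
      have h6 := hvn p hpp
      have h7 : s / 8 * ‖v p‖ ≤ s / 8 * (17 / 16 * (s' / s)) :=
        mul_le_mul_of_nonneg_left h6 (by positivity)
      have h8 : s / 8 * (17 / 16 * (s' / s)) = 17 / 128 * s' := by
        field_simp
        ring
      have h9 := hClo2 (φ p.1) (by
        rw [mem_closedBall_zero_iff]
        exact (hφn p.1 h3).le)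
      have h10 := hVγ p.1 (mem_ball_zero_iff.2 h3)
      have h11 := norm_add_le (V (p.1, v p) - V (p.1, 0)) (V (p.1, 0) - γ2b (φ p.1))
      rw [sub_add_sub_cancel] at h11
      rw [h10] at h11
      have h5' : ‖V (p.1, v p) - γ2 (φ p.1)‖ ≤ s / 8 * ‖v p‖ := by
        rw [← h10]
        exact h5
      linarith
    · obtain ⟨-, -, a, ha, ea⟩ := hp _ (hqm p hpp)
      have hXu : X (p.1, v p) = u p := hu2
      have hgne : ∀ (j : Fin 2) (x y : ℂ), cht j x y ≠ 0 := cht_ne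
      change f.map^[n] (nod ι c c' κ κ' s' γb ((κ * u p + c - c') / κ', p.2)) =
        nod ι2 c2 c2' κ κ' s' γ2b (p.1, (V (p.1, v p) - γ2b (φ p.1)) / s')
      have eL : cht ι (c' + κ' * ((κ * u p + c - c') / κ'))
          (γb ((c' - c + κ' * ((κ * u p + c - c') / κ')) / κ) + s' * p.2) =
          gp ι c κ γ (X (p.1, v p), s * v p) := by
        have f1 : c' + κ' * ((κ * u p + c - c') / κ') = c + κ * u p := by
          field_simp
          ring
        have f2 : (c' - c + κ' * ((κ * u p + c - c') / κ')) / κ = u p := by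
          field_simp
          ring
        have f3 : γb (u p) + s' * p.2 = γ (u p) + s * v p := by
          rw [hv]
          field_simp
          ring
        rw [f1, f2, f3, hXu]
        rfl
      have eR : cht ι2 (c2' + κ' * p.1)
          (γ2b ((c2' - c2 + κ' * p.1) / κ) + s' * ((V (p.1, v p) - γ2b (φ p.1)) / s')) =
          cht ι2 (c2' + κ' * p.1) (V (p.1, v p)) := by
        have f1 : γ2b ((c2' - c2 + κ' * p.1) / κ) + s' * ((V (p.1, v p) - γ2b (φ p.1)) / s') =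
            V (p.1, v p) := by
          have : γ2b ((c2' - c2 + κ' * p.1) / κ) = γ2b (φ p.1) := rfl
          rw [this, mul_div_cancel₀ _ hsc']
          ring
        rw [f1]
      have hgp : gp ι c κ γ (X (p.1, v p), s * v p) ≠ 0 := cht_ne _ _ _
      calc f.map^[n] (nod ι c c' κ κ' s' γb ((κ * u p + c - c') / κ', p.2))
          = f.map^[n] (toPP ⟨gp ι c κ γ (X (p.1, v p), s * v p), hgp⟩) := by
            congr 1
            exact toPP_eq (cht_ne _ _ _) hgp 1 (by rw [one_smul]; exact eL.symm)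
        _ = toPP ⟨It f n (gp ι c κ γ (X (p.1, v p), s * v p)),
              pmap_ne (iter_nd f.nondeg n) hgp⟩ := map_iter f n hgp
        _ = toPP ⟨cht ι2 (c2' + κ' * p.1) (V (p.1, v p)), cht_ne _ _ _⟩ :=
            toPP_eq _ (cht_ne _ _ _) a ea.symm
        _ = nod ι2 c2 c2' κ κ' s' γ2b (p.1, (V (p.1, v p) - γ2b (φ p.1)) / s') :=
            toPP_eq _ _ 1 (by rw [one_smul]; exact eR)

end Pool.Agent.P2
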