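import Pool.Agent.helper43.P2.CHN

/-!
# Row p2:INT (charged trapping regions intersect)
-/

set_option autoImplicit false

open scoped ContDiff Topology
open MeasureTheory Filter Set Metric MvPolynomial Pool.Agent.helper37.QA

namespace Pool.Agent.P2

/-! ### Calculus in one and two variables -/

section
variable {E : Type} [NormedAddCommGroup E] [MeasurableSpace E] [BorelSpace E]

theorem INT_integrable (μ : Measure E) [IsFiniteMeasureOnCompacts μ] (Ω : Set E) (u h : E → ℝ)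
    (hu : ContinuousOn u Ω) (hc : HasCompactSupport u) (hs : tsupport u ⊆ Ω) (hh : ContinuousOn h Ω) :
    Integrable (fun x => u x * h x) μ := by
  have hK : IsCompact (tsupport u) := hc
  have h1 : IntegrableOn (fun x => u x * h x) (tsupport u) μ :=
    ((hu.mono hs).mul (hh.mono hs)).integrableOn_compact hK
  refine (integrableOn_iff_integrable_of_support_subset ?_).1 h1
  intro x hx
  apply subset_tsupport
  intro h0
  apply hx
  show u x * h x = 0
  rw [show u x = 0 from h0, zero_mul]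

end

theorem INT_lap (g : ℂ → ℝ) (z : ℂ) : lap g z = (1 / 4) * (fderiv ℝ (fderiv ℝ g) z 1 1 +
    fderiv ℝ (fderiv ℝ g) z Complex.I Complex.I) := by
  unfold lap
  rw [iteratedFDeriv_two_apply, iteratedFDeriv_two_apply]
  rfl

theorem INT_compact (χ : ℂ → ℝ) (hs : tsupport χ ⊆ ball 0 1) : HasCompactSupport χ :=
  (isCompact_closedBall (0 : ℂ) 1).of_isClosed_subset (isClosed_tsupport χ)
    (hs.trans ball_subset_closedBall)

theorem INT_tsupp_fderiv (χ : ℂ → ℝ) (v : ℂ) : tsupport (fun z => fderiv ℝ χ z v) ⊆ tsupport χ := by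
  refine closure_minimal ?_ (isClosed_tsupport χ)
  intro z hz
  by_contra hcon
  apply hz
  show fderiv ℝ χ z v = 0
  have h1 : fderiv ℝ χ z = 0 := by
    by_contra h2
    exact hcon (support_fderiv_subset ℝ h2)
  rw [h1]
  rfl

theorem INT_second (g : ℂ → ℝ) (v : ℂ) (z : ℂ) (hg : DifferentiableAt ℝ (fderiv ℝ g) z) :
    HasFDerivAt (fun z => fderiv ℝ g z v)
      ((ContinuousLinearMap.apply ℝ ℝ v).comp (fderiv ℝ (fderiv ℝ g) z)) z :=
  (ContinuousLinearMap.apply ℝ ℝ v).hasFDerivAt.comp z hg.hasFDerivAt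

theorem INT_ibp1 (χ g : ℂ → ℝ) (v : ℂ) (hχ : ContDiff ℝ ∞ χ) (hs : tsupport χ ⊆ ball 0 1)
    (hg : ContDiffOn ℝ ∞ g (ball 0 1)) :
    ∫ z, χ z * fderiv ℝ (fderiv ℝ g) z v v = ∫ z, fderiv ℝ (fderiv ℝ χ) z v v * g z := by
  have hc := INT_compact χ hs
  have hΩ : IsOpen (ball (0 : ℂ) 1) := isOpen_ball
  -- regularity of g
  have hgd : ∀ z ∈ ball (0 : ℂ) 1, DifferentiableAt ℝ g z := fun z hz =>
    (hg.contDiffAt (hΩ.mem_nhds hz)).differentiableAt (by simp)
  have hg1 : ContDiffOn ℝ ∞ (fderiv ℝ g) (ball 0 1) := hg.fderiv_of_isOpen hΩ (by simp)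
  have hgdd : ∀ z ∈ ball (0 : ℂ) 1, DifferentiableAt ℝ (fderiv ℝ g) z := fun z hz =>
    (hg1.contDiffAt (hΩ.mem_nhds hz)).differentiableAt (by simp)
  have hg2 : ContinuousOn (fderiv ℝ (fderiv ℝ g)) (ball 0 1) :=
    (hg1.fderiv_of_isOpen (m := ∞) hΩ (by simp)).continuousOn
  -- regularity of χ
  have hχ1 : ContDiff ℝ ∞ (fderiv ℝ χ) := hχ.fderiv_right (by simp)
  have hχ2 : ContDiff ℝ ∞ (fderiv ℝ (fderiv ℝ χ)) := hχ1.fderiv_right (by simp)
  have hχ1d : ∀ z, DifferentiableAt ℝ (fderiv ℝ χ) z := fun z =>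
    (hχ1.differentiable (by simp)) z
  have hs1 : tsupport (fun z => fderiv ℝ χ z v) ⊆ ball 0 1 := (INT_tsupp_fderiv χ v).trans hs
  have hc1 := INT_compact _ hs1
  have hχ1v : ContDiff ℝ ∞ (fun z => fderiv ℝ χ z v) := hχ1.clm_apply contDiff_const
  have e1 : ∀ z, fderiv ℝ (fun z => fderiv ℝ χ z v) z v = fderiv ℝ (fderiv ℝ χ) z v v := by
    intro z
    rw [(INT_second χ v z (hχ1d z)).fderiv]
    rfl
  have hs2 : tsupport (fun z => fderiv ℝ (fderiv ℝ χ) z v v) ⊆ ball 0 1 := by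
    have h1 := (INT_tsupp_fderiv (fun z => fderiv ℝ χ z v) v).trans hs1
    have h2 : (fun z => fderiv ℝ (fun z => fderiv ℝ χ z v) z v) =
        fun z => fderiv ℝ (fderiv ℝ χ) z v v := funext e1
    rwa [h2] at h1
  have hgv : ContinuousOn (fun z => fderiv ℝ g z v) (ball 0 1) :=
    hg1.continuousOn.clm_apply continuousOn_const
  have hgvv : ContinuousOn (fun z => fderiv ℝ (fderiv ℝ g) z v v) (ball 0 1) :=
    (hg2.clm_apply continuousOn_const).clm_apply continuousOn_const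
  have hχvv : Continuous (fun z => fderiv ℝ (fderiv ℝ χ) z v v) :=
    (hχ2.continuous.clm_apply continuous_const).clm_apply continuous_const
  have e2 : ∀ z ∈ ball (0 : ℂ) 1, fderiv ℝ (fun z => fderiv ℝ g z v) z v = fderiv ℝ (fderiv ℝ g) z v v := by
    intro z hz
    rw [(INT_second g v z (hgdd z hz)).fderiv]
    rfl
  have e3 : (fun z => χ z * fderiv ℝ (fun z => fderiv ℝ g z v) z v) =
      fun z => χ z * fderiv ℝ (fderiv ℝ g) z v v := by
    funext z
    by_cases hz : z ∈ ball (0 : ℂ) 1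
    · rw [e2 z hz]
    · rw [image_eq_zero_of_notMem_tsupport (fun h => hz (hs h)), zero_mul, zero_mul]
  have s1 := integral_mul_fderiv_eq_neg_fderiv_mul_of_integrable (μ := (volume : Measure ℂ))
    (f := χ) (g := fun z => fderiv ℝ g z v) (v := v)
    (INT_integrable volume (ball 0 1) (fun z => fderiv ℝ χ z v) (fun z => fderiv ℝ g z v)
      hχ1v.continuous.continuousOn hc1 hs1 hgv)
    (by
      rw [e3]
      exact INT_integrable volume (ball 0 1) χ _ hχ.continuous.continuousOn hc hs hgvv)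
    (INT_integrable volume (ball 0 1) χ (fun z => fderiv ℝ g z v) hχ.continuous.continuousOn hc hs hgv)
    (fun z _ => (hχ.differentiable (by simp)) z)
    (fun z hz => (INT_second g v z (hgdd z (hs hz))).differentiableAt)
  have s2 := integral_mul_fderiv_eq_neg_fderiv_mul_of_integrable (μ := (volume : Measure ℂ))
    (f := fun z => fderiv ℝ χ z v) (g := g) (v := v)
    (by
      have h1 : (fun z => fderiv ℝ (fun z => fderiv ℝ χ z v) z v * g z) =
          fun z => fderiv ℝ (fderiv ℝ χ) z v v * g z := by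
        funext z
        rw [e1]
      rw [h1]
      exact INT_integrable volume (ball 0 1) _ g hχvv.continuousOn (INT_compact _ hs2) hs2
        hg.continuousOn)
    (INT_integrable volume (ball 0 1) (fun z => fderiv ℝ χ z v) (fun z => fderiv ℝ g z v)
      hχ1v.continuous.continuousOn hc1 hs1 hgv)
    (INT_integrable volume (ball 0 1) (fun z => fderiv ℝ χ z v) g
      hχ1v.continuous.continuousOn hc1 hs1 hg.continuousOn)
    (fun z _ => (hχ1v.differentiable (by simp)) z)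
    (fun z hz => hgd z (hs1 hz))
  rw [e3] at s1
  rw [s1, s2, neg_neg]
  refine integral_congr_ae (Eventually.of_forall fun z => ?_)
  show fderiv ℝ (fun z => fderiv ℝ χ z v) z v * g z = _
  rw [e1]

theorem INT_tsupp_lap (χ : ℂ → ℝ) : tsupport (lap χ) ⊆ tsupport χ := by
  refine closure_minimal ?_ (isClosed_tsupport χ)
  intro z hz
  by_contra hcon
  apply hz
  have h1 : ∀ v : ℂ, fderiv ℝ (fderiv ℝ χ) z v v = 0 := by
    intro v
    have h2 : fderiv ℝ (fderiv ℝ χ) z = 0 := by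
      by_contra h3
      have h4 := support_fderiv_subset (𝕜 := ℝ) (f := fderiv ℝ χ) h3
      exact hcon (tsupport_fderiv_subset ℝ h4)
    rw [h2]
    rfl
  rw [INT_lap, h1, h1]
  ring

theorem INT_lap_cont (χ : ℂ → ℝ) (hχ : ContDiff ℝ ∞ χ) : Continuous (lap χ) := by
  have hχ1 : ContDiff ℝ ∞ (fderiv ℝ χ) := hχ.fderiv_right (by simp)
  have hχ2 : ContDiff ℝ ∞ (fderiv ℝ (fderiv ℝ χ)) := hχ1.fderiv_right (by simp)
  have h1 : ∀ v : ℂ, Continuous (fun z => fderiv ℝ (fderiv ℝ χ) z v v) := fun v =>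
    (hχ2.continuous.clm_apply continuous_const).clm_apply continuous_const
  have h2 : lap χ = fun z => (1 / 4) * (fderiv ℝ (fderiv ℝ χ) z 1 1 +
      fderiv ℝ (fderiv ℝ χ) z Complex.I Complex.I) := funext (INT_lap χ)
  rw [h2]
  exact continuous_const.mul ((h1 1).add (h1 Complex.I))

theorem INT_ibp (χ g : ℂ → ℝ) (hχ : ContDiff ℝ ∞ χ) (hs : tsupport χ ⊆ ball 0 1)
    (hg : ContDiffOn ℝ ∞ g (ball 0 1)) : ∫ z, χ z * lap g z = ∫ z, lap χ z * g z := by
  have hc := INT_compact χ hs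
  have hΩ : IsOpen (ball (0 : ℂ) 1) := isOpen_ball
  have hg1 : ContDiffOn ℝ ∞ (fderiv ℝ g) (ball 0 1) := hg.fderiv_of_isOpen hΩ (by simp)
  have hg2 : ContinuousOn (fderiv ℝ (fderiv ℝ g)) (ball 0 1) :=
    (hg1.fderiv_of_isOpen (m := ∞) hΩ (by simp)).continuousOn
  have hgvv : ∀ v : ℂ, ContinuousOn (fun z => fderiv ℝ (fderiv ℝ g) z v v) (ball 0 1) := fun v =>
    (hg2.clm_apply continuousOn_const).clm_apply continuousOn_const
  have hχ1 : ContDiff ℝ ∞ (fderiv ℝ χ) := hχ.fderiv_right (by simp)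
  have hχ2 : ContDiff ℝ ∞ (fderiv ℝ (fderiv ℝ χ)) := hχ1.fderiv_right (by simp)
  have hχvv : ∀ v : ℂ, Continuous (fun z => fderiv ℝ (fderiv ℝ χ) z v v) := fun v =>
    (hχ2.continuous.clm_apply continuous_const).clm_apply continuous_const
  have hs2 : ∀ v : ℂ, tsupport (fun z => fderiv ℝ (fderiv ℝ χ) z v v) ⊆ ball 0 1 := by
    intro v
    refine Subset.trans ?_ hs
    refine closure_minimal ?_ (isClosed_tsupport χ)
    intro z hz
    by_contra hcon
    apply hz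
    show fderiv ℝ (fderiv ℝ χ) z v v = 0
    have h2 : fderiv ℝ (fderiv ℝ χ) z = 0 := by
      by_contra h3
      have h4 := support_fderiv_subset (𝕜 := ℝ) (f := fderiv ℝ χ) h3
      exact hcon (tsupport_fderiv_subset ℝ h4)
    rw [h2]
    rfl
  have i1 : ∀ v : ℂ, Integrable (fun z => χ z * fderiv ℝ (fderiv ℝ g) z v v) := fun v =>
    INT_integrable volume (ball 0 1) χ _ hχ.continuous.continuousOn hc hs (hgvv v)
  have i2 : ∀ v : ℂ, Integrable (fun z => fderiv ℝ (fderiv ℝ χ) z v v * g z) := fun v =>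
    INT_integrable volume (ball 0 1) _ g (hχvv v).continuousOn (INT_compact _ (hs2 v)) (hs2 v)
      hg.continuousOn
  have e1 : (fun z => χ z * lap g z) = fun z => (1 / 4) * (χ z * fderiv ℝ (fderiv ℝ g) z 1 1 +
      χ z * fderiv ℝ (fderiv ℝ g) z Complex.I Complex.I) := by
    funext z
    rw [INT_lap]
    ring
  have e2 : (fun z => lap χ z * g z) = fun z => (1 / 4) * (fderiv ℝ (fderiv ℝ χ) z 1 1 * g z +
      fderiv ℝ (fderiv ℝ χ) z Complex.I Complex.I * g z) := by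
    funext z
    rw [INT_lap]
    ring
  rw [e1, e2, integral_const_mul, integral_const_mul, integral_add (i1 1) (i1 Complex.I),
    integral_add (i2 1) (i2 Complex.I), INT_ibp1 χ g 1 hχ hs hg, INT_ibp1 χ g Complex.I hχ hs hg]

/-! ### Continuity of the mixed density -/

theorem INT_two_le : (2 : WithTop ℕ∞) ≤ ∞ := WithTop.coe_le_coe.2 (le_top : (2 : ℕ∞) ≤ ⊤)

theorem INT_lev_cont (g : ℂ × ℂ → ℝ) (Ω : Set (ℂ × ℂ)) (hΩ : IsOpen Ω) (hg : ContDiffOn ℝ ∞ g Ω)
    (a : ℂ × ℂ) : ContinuousOn (fun p => lev g p a) Ω := by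
  have hg1 : ContDiffOn ℝ ∞ (fderiv ℝ g) Ω := hg.fderiv_of_isOpen hΩ (by simp)
  have hg2 : ContinuousOn (fderiv ℝ (fderiv ℝ g)) Ω :=
    (hg1.fderiv_of_isOpen (m := ∞) hΩ (by simp)).continuousOn
  have hgvv : ∀ v : ℂ × ℂ, ContinuousOn (fun z => fderiv ℝ (fderiv ℝ g) z v v) Ω := fun v =>
    (hg2.clm_apply continuousOn_const).clm_apply continuousOn_const
  have h1 : ContinuousOn (fun p => (1 / 4) * (fderiv ℝ (fderiv ℝ g) p a a +
      fderiv ℝ (fderiv ℝ g) p (Complex.I • a) (Complex.I • a))) Ω :=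
    continuousOn_const.mul ((hgvv a).add (hgvv (Complex.I • a)))
  refine h1.congr fun p hp => ?_
  exact CHN_lev g p a ((hg.contDiffAt (hΩ.mem_nhds hp)).of_le INT_two_le)

theorem INT_MA_cont (g : ℂ × ℂ → ℝ) (Ω : Set (ℂ × ℂ)) (hΩ : IsOpen Ω) (hg : ContDiffOn ℝ ∞ g Ω) :
    ContinuousOn (fun p => MA g g p) Ω := by
  have h := INT_lev_cont g Ω hΩ hg
  unfold MA lre lim
  have h1 := h (1, 0)
  have h2 := h (0, 1)
  have h3 := h (1, 1)
  have h4 := h (1, Complex.I)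
  have h5 : ContinuousOn (fun p => (1 / 2) * (lev g p (1, 1) - lev g p (1, 0) - lev g p (0, 1))) Ω :=
    continuousOn_const.mul ((h3.sub h1).sub h2)
  have h6 : ContinuousOn (fun p => (1 / 2) * (lev g p (1, Complex.I) - lev g p (1, 0) - lev g p (0, 1))) Ω :=
    continuousOn_const.mul ((h4.sub h1).sub h2)
  exact ((h1.mul h2).add (h2.mul h1)).sub (continuousOn_const.mul ((h5.mul h5).add (h6.mul h6)))

/-! ### Smoothness of the potentials -/

theorem INT_normSq : ContDiff ℝ ∞ (fun z : ℂ => Complex.normSq z) := by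
  have h1 : (fun z : ℂ => Complex.normSq z) = fun z : ℂ => Complex.reCLM z * Complex.reCLM z +
      Complex.imCLM z * Complex.imCLM z := by
    funext z
    rw [Complex.normSq_apply]
    rfl
  rw [h1]
  exact (Complex.reCLM.contDiff.mul Complex.reCLM.contDiff).add
    (Complex.imCLM.contDiff.mul Complex.imCLM.contDiff)

theorem INT_nq_smooth (n : ℕ) : ContDiff ℝ ∞ (fun v : Fin n → ℂ => nq v) := by
  unfold nq
  refine ContDiff.sum fun i _ => ?_
  exact INT_normSq.comp (contDiff_apply ℝ ℂ i)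

theorem INT_nq_nonneg {n : ℕ} (v : Fin n → ℂ) : 0 ≤ nq v :=
  Finset.sum_nonneg fun i _ => Complex.normSq_nonneg (v i)

theorem INT_nq_pos {n : ℕ} {v : Fin n → ℂ} (hv : v ≠ 0) : 0 < nq v := by
  rcases (INT_nq_nonneg v).lt_or_eq with h | h
  · exact h
  · exfalso
    apply hv
    funext i
    have h1 := (Finset.sum_eq_zero_iff_of_nonneg fun i _ => Complex.normSq_nonneg (v i)).1 h.symm i
      (Finset.mem_univ i)
    exact Complex.normSq_eq_zero.1 h1

theorem INT_crs_smooth : ContDiff ℝ ∞ (fun p : E3 × E3 => crs p.1 p.2) := by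
  have h1 : ∀ i : Fin 3, ContDiff ℝ ∞ (fun p : E3 × E3 => p.1 i) := fun i =>
    (contDiff_apply ℝ ℂ i).comp contDiff_fst
  have h2 : ∀ i : Fin 3, ContDiff ℝ ∞ (fun p : E3 × E3 => p.2 i) := fun i =>
    (contDiff_apply ℝ ℂ i).comp contDiff_snd
  rw [contDiff_pi]
  intro i
  fin_cases i
  · exact ((h1 1).mul (h2 2)).sub ((h1 2).mul (h2 1))
  · exact ((h1 2).mul (h2 0)).sub ((h1 0).mul (h2 2))
  · exact ((h1 0).mul (h2 1)).sub ((h1 1).mul (h2 0))

theorem INT_hol_smooth (Φ : ℂ → E3) (h : DifferentiableOn ℂ Φ (ball 0 1)) :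
    ContDiffOn ℝ ∞ Φ (ball 0 1) :=
  (h.contDiffOn isOpen_ball : ContDiffOn ℂ ∞ Φ (ball 0 1)).restrict_scalars ℝ

theorem INT_log_smooth (Φ : ℂ → E3) (h : DifferentiableOn ℂ Φ (ball 0 1))
    (h0 : ∀ z ∈ ball (0 : ℂ) 1, Φ z ≠ 0) :
    ContDiffOn ℝ ∞ (fun z => (1 / 2) * Real.log (nq (Φ z))) (ball 0 1) := by
  have h1 : ContDiffOn ℝ ∞ (fun z => nq (Φ z)) (ball 0 1) :=
    (INT_nq_smooth 3).comp_contDiffOn (INT_hol_smooth Φ h)
  exact contDiffOn_const.mul (h1.log fun z hz => (INT_nq_pos (h0 z hz)).ne')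

theorem INT_LL_smooth (Φ Ψ : ℂ → E3) (hΦ : DifferentiableOn ℂ Φ (ball 0 1))
    (hΨ : DifferentiableOn ℂ Ψ (ball 0 1))
    (h0 : ∀ z ∈ ball (0 : ℂ) 1, ∀ z' ∈ ball (0 : ℂ) 1, 0 < nq (crs (Φ z) (Ψ z'))) :
    ContDiffOn ℝ ∞ (LL Φ Ψ) (ball 0 1 ×ˢ ball 0 1) := by
  have h1 : ContDiffOn ℝ ∞ (fun p : ℂ × ℂ => Φ p.1) (ball 0 1 ×ˢ ball 0 1) :=
    (INT_hol_smooth Φ hΦ).comp contDiffOn_fst fun p hp => hp.1
  have h2 : ContDiffOn ℝ ∞ (fun p : ℂ × ℂ => Ψ p.2) (ball 0 1 ×ˢ ball 0 1) :=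
    (INT_hol_smooth Ψ hΨ).comp contDiffOn_snd fun p hp => hp.2
  have h3 : ContDiffOn ℝ ∞ (fun p : ℂ × ℂ => crs (Φ p.1) (Ψ p.2)) (ball 0 1 ×ˢ ball 0 1) :=
    INT_crs_smooth.comp_contDiffOn (h1.prodMk h2)
  have h4 : ContDiffOn ℝ ∞ (fun p : ℂ × ℂ => nq (crs (Φ p.1) (Ψ p.2))) (ball 0 1 ×ˢ ball 0 1) :=
    (INT_nq_smooth 3).comp_contDiffOn h3
  exact contDiffOn_const.mul (h4.log fun p hp => (h0 p.1 hp.1 p.2 hp.2).ne')

/-! ### Fubini -/

theorem INT_fub (χ : ℂ → ℝ) (hχ : Continuous χ) (hs : tsupport χ ⊆ ball 0 1) (g : ℂ × ℂ → ℝ)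
    (hg : ContinuousOn g (ball 0 1 ×ˢ ball 0 1)) :
    Integrable (fun z => χ z * ∫ z', χ z' * g (z, z')) ∧
      ∫ p : ℂ × ℂ, χ p.1 * χ p.2 * g p = ∫ z, χ z * ∫ z', χ z' * g (z, z') := by
  have hc := INT_compact χ hs
  have hsub : tsupport (fun p : ℂ × ℂ => χ p.1 * χ p.2) ⊆ tsupport χ ×ˢ tsupport χ := by
    refine closure_minimal ?_ ((isClosed_tsupport χ).prod (isClosed_tsupport χ))
    intro p hp
    have h1 : χ p.1 * χ p.2 ≠ 0 := hp
    exact ⟨subset_tsupport _ (left_ne_zero_of_mul h1), subset_tsupport _ (right_ne_zero_of_mul h1)⟩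
  have hc2 : HasCompactSupport (fun p : ℂ × ℂ => χ p.1 * χ p.2) :=
    (IsCompact.prod hc hc).of_isClosed_subset (isClosed_tsupport _) hsub
  have hcont : Continuous (fun p : ℂ × ℂ => χ p.1 * χ p.2) :=
    (hχ.comp continuous_fst).mul (hχ.comp continuous_snd)
  have hint : Integrable (fun p : ℂ × ℂ => χ p.1 * χ p.2 * g p) (volume.prod volume) :=
    INT_integrable (volume.prod volume) (ball 0 1 ×ˢ ball 0 1) (fun p : ℂ × ℂ => χ p.1 * χ p.2) g
      hcont.continuousOn hc2 (hsub.trans (prod_mono hs hs)) hg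
  have e1 : ∀ z : ℂ, ∫ z', χ z * χ z' * g (z, z') = χ z * ∫ z', χ z' * g (z, z') := by
    intro z
    rw [← integral_const_mul]
    refine integral_congr_ae (Eventually.of_forall fun z' => ?_)
    show χ z * χ z' * g (z, z') = χ z * (χ z' * g (z, z'))
    ring
  have h1 := hint.integral_prod_left
  have h2 := integral_prod _ hint
  have e2 : (fun z : ℂ => ∫ z', χ z * χ z' * g (z, z')) = fun z => χ z * ∫ z', χ z' * g (z, z') :=
    funext e1
  constructor
  · rw [← e2]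
    exact h1
  · rw [← e2]
    exact h2

/-! ### The static estimate -/

theorem INT_static (hINTA : INTA_stmt) (hINTB : INTB_stmt) (χ : ℂ → ℝ) (hχ : ContDiff ℝ ∞ χ)
    (hs : tsupport χ ⊆ ball 0 1) (hpos : ∀ z, 0 ≤ χ z) (s : ℝ) (hs0 : 0 < s) (hs1 : s ≤ 1) :
    ∃ C : ℝ, 0 < C ∧ ∀ (Φ Ψ : ℂ → E3) (D : ℝ), 1 ≤ D → DifferentiableOn ℂ Φ (ball 0 1) →
      DifferentiableOn ℂ Ψ (ball 0 1) →
      (∀ z ∈ ball (0 : ℂ) 1, Φ z ≠ 0) → (∀ z ∈ ball (0 : ℂ) 1, Ψ z ≠ 0) →
      (∀ z ∈ ball (0 : ℂ) 1, |(1 / 2) * Real.log (nq (Φ z))| ≤ D) →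
      (∀ z ∈ ball (0 : ℂ) 1, |(1 / 2) * Real.log (nq (Ψ z))| ≤ D) →
      (∀ z ∈ ball (0 : ℂ) 1, ∀ z' ∈ ball (0 : ℂ) 1,
        s ^ 2 * (nq (Φ z) * nq (Ψ z')) ≤ nq (crs (Φ z) (Ψ z'))) →
      (∫ z, lap χ z * ((1 / 2) * Real.log (nq (Φ z)))) *
        (∫ z, lap χ z * ((1 / 2) * Real.log (nq (Ψ z)))) ≤ C * D := by
  obtain ⟨CA, hCA, hA⟩ := hINTA χ hχ hs
  obtain ⟨CB, hCB, hB⟩ := hINTB χ hχ hs hpos
  set Λ : ℝ := Real.log (1 / s) with hΛ
  have hΛ0 : 0 ≤ Λ := Real.log_nonneg (by rw [le_div_iff₀ hs0, one_mul]; exact hs1)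
  set I1 : ℝ := ∫ z, |lap χ z| with hI1
  have hI10 : 0 ≤ I1 := integral_nonneg fun z => abs_nonneg _
  have hlapc : Continuous (lap χ) := INT_lap_cont χ hχ
  have hlaps : tsupport (lap χ) ⊆ ball 0 1 := (INT_tsupp_lap χ).trans hs
  have hlapcs : HasCompactSupport (lap χ) := INT_compact _ hlaps
  refine ⟨CA * (1 + Λ) * I1 + CB * (1 + Λ) * (1 + Λ), by positivity, ?_⟩
  intro Φ Ψ D hD hΦ hΨ hΦ0 hΨ0 hΦD hΨD hsep
  have hcrs : ∀ z ∈ ball (0 : ℂ) 1, ∀ z' ∈ ball (0 : ℂ) 1, 0 < nq (crs (Φ z) (Ψ z')) := by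
    intro z hz z' hz'
    refine lt_of_lt_of_le ?_ (hsep z hz z' hz')
    have h1 := INT_nq_pos (hΦ0 z hz)
    have h2 := INT_nq_pos (hΨ0 z' hz')
    positivity
  have hLL := INT_LL_smooth Φ Ψ hΦ hΨ hcrs
  have hMA := INT_MA_cont (LL Φ Ψ) (ball 0 1 ×ˢ ball 0 1) (isOpen_ball.prod isOpen_ball) hLL
  obtain ⟨hint, hfub⟩ := INT_fub χ hχ.continuous hs (fun p => MA (LL Φ Ψ) (LL Φ Ψ) p) hMA
  have ha := INT_log_smooth Φ hΦ hΦ0
  set a : ℂ → ℝ := fun z => (1 / 2) * Real.log (nq (Φ z)) with hadef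
  set α : ℝ := ∫ z, lap χ z * ((1 / 2) * Real.log (nq (Φ z))) with hα
  set β : ℝ := ∫ z, lap χ z * ((1 / 2) * Real.log (nq (Ψ z))) with hβ
  have hibp : ∫ z, χ z * lap a z = α := INT_ibp χ a hχ hs ha
  -- integrability of `χ lap a`
  have hlapa : ContinuousOn (lap a) (ball 0 1) := by
    have hg1 : ContDiffOn ℝ ∞ (fderiv ℝ a) (ball 0 1) := ha.fderiv_of_isOpen isOpen_ball (by simp)
    have hg2 : ContinuousOn (fderiv ℝ (fderiv ℝ a)) (ball 0 1) :=
      (hg1.fderiv_of_isOpen (m := ∞) isOpen_ball (by simp)).continuousOn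
    have hgvv : ∀ v : ℂ, ContinuousOn (fun z => fderiv ℝ (fderiv ℝ a) z v v) (ball 0 1) := fun v =>
      (hg2.clm_apply continuousOn_const).clm_apply continuousOn_const
    have h2 : lap a = fun z => (1 / 4) * (fderiv ℝ (fderiv ℝ a) z 1 1 +
        fderiv ℝ (fderiv ℝ a) z Complex.I Complex.I) := funext (INT_lap a)
    rw [h2]
    exact continuousOn_const.mul ((hgvv 1).add (hgvv Complex.I))
  have hinta : Integrable (fun z => χ z * lap a z) :=
    INT_integrable volume (ball 0 1) χ (lap a) hχ.continuous.continuousOn (INT_compact χ hs) hs hlapa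
  -- the first estimate
  have h1 : |(∫ z, χ z * ∫ z', χ z' * MA (LL Φ Ψ) (LL Φ Ψ) (z, z')) - α * β| ≤ CA * (1 + Λ) * α := by
    have e1 : α * β = ∫ z, χ z * lap a z * β := by
      rw [integral_mul_const, hibp]
    have e2 : CA * (1 + Λ) * α = ∫ z, CA * (1 + Λ) * (χ z * lap a z) := by
      rw [integral_const_mul, hibp]
    rw [e1, e2, ← integral_sub hint (hinta.mul_const β)]
    refine (abs_integral_le_integral_abs).trans ?_
    refine integral_mono (hint.sub (hinta.mul_const β)).abs (hinta.const_mul _) fun z => ?_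
    show |(χ z * ∫ z', χ z' * MA (LL Φ Ψ) (LL Φ Ψ) (z, z')) - χ z * lap a z * β| ≤
      CA * (1 + Λ) * (χ z * lap a z)
    by_cases hz : z ∈ ball (0 : ℂ) 1
    · have h3 := hA Φ Ψ s hs0 hs1 hΦ hΨ hΦ0 hΨ0 hsep z hz
      rw [show (χ z * ∫ z', χ z' * MA (LL Φ Ψ) (LL Φ Ψ) (z, z')) - χ z * lap a z * β =
        χ z * ((∫ z', χ z' * MA (LL Φ Ψ) (LL Φ Ψ) (z, z')) - lap a z * β) by ring, abs_mul,
        abs_of_nonneg (hpos z)]
      calc χ z * |(∫ z', χ z' * MA (LL Φ Ψ) (LL Φ Ψ) (z, z')) - lap a z * β|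
          ≤ χ z * (CA * (1 + Λ) * lap a z) := mul_le_mul_of_nonneg_left h3 (hpos z)
        _ = CA * (1 + Λ) * (χ z * lap a z) := by ring
    · have h4 : χ z = 0 := image_eq_zero_of_notMem_tsupport (fun h => hz (hs h))
      rw [h4]
      simp
  -- the second estimate
  have h2 := hB Φ Ψ s D hs0 hs1 hD hΦ hΨ hΦ0 hΨ0 hΦD hΨD hsep
  rw [hfub] at h2
  rw [abs_le] at h1 h2
  -- the bound for `α`
  have hαle : α ≤ I1 * D := by
    have h5 : Integrable (fun z => lap χ z * a z) :=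
      INT_integrable volume (ball 0 1) (lap χ) a hlapc.continuousOn hlapcs hlaps ha.continuousOn
    have h6 : Integrable (fun z => |lap χ z|) := (hlapc.integrable_of_hasCompactSupport hlapcs).abs
    rw [hα, hI1, ← integral_mul_const]
    refine integral_mono h5 (h6.mul_const D) fun z => ?_
    show lap χ z * a z ≤ |lap χ z| * D
    by_cases hz : z ∈ ball (0 : ℂ) 1
    · calc lap χ z * a z ≤ |lap χ z * a z| := le_abs_self _
        _ = |lap χ z| * |a z| := abs_mul _ _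
        _ ≤ |lap χ z| * D := mul_le_mul_of_nonneg_left (hΦD z hz) (abs_nonneg _)
    · have h4 : lap χ z = 0 := image_eq_zero_of_notMem_tsupport (fun h => hz (hlaps h))
      rw [h4]
      simp
  have h7 : α * β ≤ CA * (1 + Λ) * α + CB * (1 + Λ) * (D + Λ) := by
    have := h1.2
    have := h2.1
    have h8 : 2 * α * β = 2 * (α * β) := by ring
    linarith
  have h9 : CA * (1 + Λ) * α ≤ CA * (1 + Λ) * (I1 * D) :=
    mul_le_mul_of_nonneg_left hαle (by positivity)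
  have h10 : CB * (1 + Λ) * (D + Λ) ≤ CB * (1 + Λ) * ((1 + Λ) * D) :=
    mul_le_mul_of_nonneg_left (by nlinarith) (by positivity)
  calc α * β ≤ CA * (1 + Λ) * (I1 * D) + CB * (1 + Λ) * ((1 + Λ) * D) := by linarith
    _ = _ := by ring

/-! ### Scaling -/

theorem INT_lap_scale (g : ℂ → ℝ) (hg : ContDiff ℝ ∞ g) (ρ : ℝ) (z : ℂ) :
    lap (fun z => g (ρ • z)) z = ρ ^ 2 * lap g (ρ • z) := by
  have hd : ∀ w : ℂ, HasDerivAt (fun w : ℂ => ρ • w) (ρ : ℂ) w := by
    intro w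
    have h1 := (hasDerivAt_id w).const_mul (ρ : ℂ)
    rw [mul_one] at h1
    have h2 : (fun w : ℂ => ρ • w) = fun w : ℂ => (ρ : ℂ) * id w := by
      funext w
      rw [Complex.real_smul]
      rfl
    rw [h2]
    exact h1
  have h1 := CHN_lap (fun w : ℂ => ρ • w) z g
    (Eventually.of_forall fun w => (hd w).differentiableAt) (hg.contDiffAt.of_le INT_two_le)
  rw [(hd z).deriv] at h1
  rw [h1, INT_lap]
  have h2 : ∀ L : ℂ →L[ℝ] ℂ →L[ℝ] ℝ, L (ρ : ℂ) (ρ : ℂ) = ρ ^ 2 * L 1 1 := by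
    intro L
    have h3 : (ρ : ℂ) = ρ • (1 : ℂ) := by rw [Complex.real_smul, mul_one]
    rw [h3, map_smul, map_smul]
    show ρ * (ρ * L 1 1) = ρ ^ 2 * L 1 1
    ring
  have h4 : ∀ L : ℂ →L[ℝ] ℂ →L[ℝ] ℝ, L (Complex.I • (ρ : ℂ)) (Complex.I • (ρ : ℂ)) =
      ρ ^ 2 * L Complex.I Complex.I := by
    intro L
    have h3 : Complex.I • (ρ : ℂ) = ρ • Complex.I := by
      rw [Complex.real_smul, smul_eq_mul, mul_comm]
    rw [h3, map_smul, map_smul]
    show ρ * (ρ * L Complex.I Complex.I) = ρ ^ 2 * L Complex.I Complex.I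
    ring
  rw [h2, h4]
  ring

theorem INT_integral_scale (F : ℂ → ℝ) (ρ : ℝ) (hρ : 0 < ρ) :
    ∫ z : ℂ, ρ ^ 2 * F (ρ • z) = ∫ z, F z := by
  rw [integral_const_mul, Measure.integral_comp_smul, Complex.finrank_real_complex, smul_eq_mul,
    abs_of_pos (by positivity), ← mul_assoc, mul_inv_cancel₀ (by positivity), one_mul]

theorem INT_eta_smooth : ContDiff ℝ ∞ eta := by
  unfold eta
  exact Real.smoothTransition.contDiff.comp (contDiff_const.sub (contDiff_const.mul INT_normSq))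

theorem INT_eta_supp (ρ : ℝ) (hρ : 4 / 5 < ρ) :
    tsupport (fun z : ℂ => eta (ρ • z) ^ 2) ⊆ ball 0 1 := by
  have h1 : tsupport (fun z : ℂ => eta (ρ • z) ^ 2) ⊆ {z : ℂ | Complex.normSq (ρ • z) ≤ 5 / 8} := by
    refine closure_minimal ?_ (isClosed_le ?_ continuous_const)
    · intro z hz
      by_contra hcon
      apply hz
      show eta (ρ • z) ^ 2 = 0
      have h2 : ¬ Complex.normSq (ρ • z) ≤ 5 / 8 := hcon
      have h3 : eta (ρ • z) = 0 := Real.smoothTransition.zero_of_nonpos (by linarith)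
      rw [h3]
      norm_num
    · exact Complex.continuous_normSq.comp (continuous_const_smul ρ)
  intro z hz
  have h2 : Complex.normSq (ρ • z) ≤ 5 / 8 := h1 hz
  rw [Complex.real_smul, map_mul, Complex.normSq_ofReal, Complex.normSq_eq_norm_sq] at h2
  rw [mem_ball_zero_iff]
  by_contra hcon
  rw [not_lt] at hcon
  have h3 : 1 ≤ ‖z‖ ^ 2 := by nlinarith
  nlinarith [mul_le_mul_of_nonneg_left h3 (by positivity : (0 : ℝ) ≤ ρ * ρ)]

/-! ### Polynomial maps -/

theorem INT_eval_diff {m : ℕ} (p : MvPolynomial (Fin m) ℂ) :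
    Differentiable ℂ (fun x : Fin m → ℂ => eval x p) := by
  induction p using MvPolynomial.induction_on with
  | C a =>
    simp only [eval_C]
    exact differentiable_const a
  | add p q hp hq =>
    simp only [map_add]
    exact hp.add hq
  | mul_X p i hp =>
    simp only [map_mul, eval_X]
    exact hp.mul (differentiable_apply i)

theorem INT_It_diff {d : ℕ} (f : Endo 2 d) (n : ℕ) : Differentiable ℂ (It f n) := by
  rw [differentiable_pi]
  intro i
  exact INT_eval_diff (iter f.F n i)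

theorem INT_It_ne {d : ℕ} (f : Endo 2 d) (n : ℕ) {Z : E3} (hZ : Z ≠ 0) : It f n Z ≠ 0 :=
  pmap_ne (iter_nd f.nondeg n) hZ

theorem INT_It_cone {d : ℕ} (f : Endo 2 d) (U : Set (PP 2)) (hU : IsTrapping f U) (n : ℕ) (hn : 1 ≤ n)
    {Z : E3} (hZ : Z ∈ cone U) : It f n Z ∈ cone (f.map '' closure U) := by
  obtain ⟨h0, hZU⟩ := hZ
  refine ⟨INT_It_ne f n h0, ?_⟩
  have h1 := map_iter f n h0
  obtain ⟨m, rfl⟩ : ∃ m, n = m + 1 := ⟨n - 1, by omega⟩
  rw [Function.iterate_succ_apply'] at h1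
  exact ⟨f.map^[m] (toPP ⟨Z, h0⟩), subset_closure (iterate_mem hU hZU m), h1⟩

/-! ### Separation -/

theorem INT_nq_smul {n : ℕ} (c : ℂ) (v : Fin n → ℂ) : nq (c • v) = Complex.normSq c * nq v := by
  unfold nq
  rw [Finset.mul_sum]
  refine Finset.sum_congr rfl fun i _ => ?_
  rw [Pi.smul_apply, smul_eq_mul, map_mul]

theorem INT_crs_smul (a b : ℂ) (v w : E3) : crs (a • v) (b • w) = (a * b) • crs v w := by
  funext i
  fin_cases i
  · show (a • v) 1 * (b • w) 2 - (a • v) 2 * (b • w) 1 = (a * b) * (v 1 * w 2 - v 2 * w 1)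
    simp only [Pi.smul_apply, smul_eq_mul]
    ring
  · show (a • v) 2 * (b • w) 0 - (a • v) 0 * (b • w) 2 = (a * b) * (v 2 * w 0 - v 0 * w 2)
    simp only [Pi.smul_apply, smul_eq_mul]
    ring
  · show (a • v) 0 * (b • w) 1 - (a • v) 1 * (b • w) 0 = (a * b) * (v 0 * w 1 - v 1 * w 0)
    simp only [Pi.smul_apply, smul_eq_mul]
    ring

theorem INT_crs_zero {v w : E3} (hv : v ≠ 0) (hw : w ≠ 0) (h : crs v w = 0) :
    toPP ⟨v, hv⟩ = toPP ⟨w, hw⟩ := by
  have h0 : v 1 * w 2 - v 2 * w 1 = 0 := congrFun h 0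
  have h1 : v 2 * w 0 - v 0 * w 2 = 0 := congrFun h 1
  have h2 : v 0 * w 1 - v 1 * w 0 = 0 := congrFun h 2
  obtain ⟨j, hj⟩ := Function.ne_iff.1 hw
  have hj' : w j ≠ 0 := hj
  refine toPP_eq hv hw (v j / w j) ?_
  have h3 : ∀ i, v j * w i = v i * w j := by
    intro i
    fin_cases i <;> fin_cases j
    · rfl
    · show v 1 * w 0 = v 0 * w 1
      linear_combination -h2
    · show v 2 * w 0 = v 0 * w 2
      linear_combination h1
    · show v 0 * w 1 = v 1 * w 0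
      linear_combination h2
    · rfl
    · show v 2 * w 1 = v 1 * w 2
      linear_combination -h0
    · show v 0 * w 2 = v 2 * w 0
      linear_combination -h1
    · show v 1 * w 2 = v 2 * w 1
      linear_combination h0
    · rfl
  funext i
  rw [Pi.smul_apply, smul_eq_mul, div_mul_eq_mul_div, h3 i, mul_div_cancel_right₀ _ hj']

theorem INT_cone_closed {A : Set (PP 2)} (hA : IsClosed A) :
    IsClosed (sphere (0 : E3) 1 ∩ cone A) := by
  have h1 : sphere (0 : E3) 1 ∩ cone A = sphere (0 : E3) 1 ∩ (cone Aᶜ)ᶜ := by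
    ext x
    constructor
    · rintro ⟨h2, h3, h4⟩
      refine ⟨h2, ?_⟩
      rintro ⟨h5, h6⟩
      exact h6 h4
    · rintro ⟨h2, h3⟩
      refine ⟨h2, ?_⟩
      have h5 : x ≠ 0 := by
        rintro rfl
        simp at h2
      refine ⟨h5, ?_⟩
      by_contra h6
      exact h3 ⟨h5, h6⟩
  rw [h1]
  exact isClosed_sphere.inter (cone_open hA.isOpen_compl).isClosed_compl

theorem INT_sep {A B : Set (PP 2)} (hA : IsClosed A) (hB : IsClosed B) (hAB : A ∩ B = ∅) :
    ∃ s : ℝ, 0 < s ∧ s ≤ 1 ∧ ∀ v ∈ cone A, ∀ w ∈ cone B, s ^ 2 * (nq v * nq w) ≤ nq (crs v w) := by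
  have hcpt : IsCompact (sphere (0 : E3) 1) := isCompact_sphere _ _
  have hS : IsCompact ((sphere (0 : E3) 1 ∩ cone A) ×ˢ (sphere (0 : E3) 1 ∩ cone B)) :=
    (hcpt.of_isClosed_subset (INT_cone_closed hA) inter_subset_left).prod
      (hcpt.of_isClosed_subset (INT_cone_closed hB) inter_subset_left)
  set S : Set (E3 × E3) := (sphere (0 : E3) 1 ∩ cone A) ×ˢ (sphere (0 : E3) 1 ∩ cone B) with hSdef
  -- scaling
  have hscale : ∀ v ∈ cone A, ∀ w ∈ cone B, ∃ a b : ℂ, a ≠ 0 ∧ b ≠ 0 ∧ (a • v, b • w) ∈ S := by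
    intro v hv w hw
    have hvn : ‖v‖ ≠ 0 := norm_ne_zero_iff.2 hv.1
    have hwn : ‖w‖ ≠ 0 := norm_ne_zero_iff.2 hw.1
    have ha : ((‖v‖ : ℂ)⁻¹) ≠ 0 := inv_ne_zero (by exact_mod_cast hvn)
    have hb : ((‖w‖ : ℂ)⁻¹) ≠ 0 := inv_ne_zero (by exact_mod_cast hwn)
    refine ⟨(‖v‖ : ℂ)⁻¹, (‖w‖ : ℂ)⁻¹, ha, hb, ⟨?_, cone_smul hv ha⟩, ⟨?_, cone_smul hw hb⟩⟩
    · show (‖v‖ : ℂ)⁻¹ • v ∈ sphere (0 : E3) 1
      rw [mem_sphere_zero_iff_norm]
      simp [norm_smul, hvn]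
    · show (‖w‖ : ℂ)⁻¹ • w ∈ sphere (0 : E3) 1
      rw [mem_sphere_zero_iff_norm]
      simp [norm_smul, hwn]
  by_cases hne : S.Nonempty
  · have hcrs : Continuous (fun p : E3 × E3 => nq (crs p.1 p.2)) :=
      (INT_nq_smooth 3).continuous.comp INT_crs_smooth.continuous
    have hnum : Continuous (fun p : E3 × E3 => nq p.1 * nq p.2) :=
      ((INT_nq_smooth 3).continuous.comp continuous_fst).mul
        ((INT_nq_smooth 3).continuous.comp continuous_snd)
    have hpos : ∀ p ∈ S, 0 < nq p.1 * nq p.2 := fun p hp =>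
      mul_pos (INT_nq_pos hp.1.2.1) (INT_nq_pos hp.2.2.1)
    have hcont : ContinuousOn (fun p : E3 × E3 => nq (crs p.1 p.2) / (nq p.1 * nq p.2)) S :=
      hcrs.continuousOn.div hnum.continuousOn fun p hp => (hpos p hp).ne'
    obtain ⟨q, hq, hmin⟩ := hS.exists_isMinOn hne hcont
    have hmin' : ∀ p ∈ S, nq (crs q.1 q.2) / (nq q.1 * nq q.2) ≤
        nq (crs p.1 p.2) / (nq p.1 * nq p.2) := fun p hp => isMinOn_iff.1 hmin p hp
    clear hmin
    generalize hm : nq (crs q.1 q.2) / (nq q.1 * nq q.2) = m at hmin'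
    have hm0 : 0 < m := by
      rw [← hm]
      have h1 : crs q.1 q.2 ≠ 0 := by
        intro h2
        have h3 := INT_crs_zero hq.1.2.1 hq.2.2.1 h2
        have h4 : toPP ⟨q.1, hq.1.2.1⟩ ∈ A ∩ B := ⟨hq.1.2.2, h3 ▸ hq.2.2.2⟩
        rw [hAB] at h4
        exact h4
      exact div_pos (INT_nq_pos h1) (hpos q hq)
    refine ⟨min 1 (Real.sqrt m), lt_min one_pos (Real.sqrt_pos.2 hm0), min_le_left _ _, ?_⟩
    intro v hv w hw
    obtain ⟨a, b, ha, hb, hmem⟩ := hscale v hv w hw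
    have h5 := hmin' _ hmem
    have hp5 := hpos _ hmem
    rw [le_div_iff₀ hp5] at h5
    dsimp only at h5
    rw [INT_crs_smul, INT_nq_smul, INT_nq_smul, INT_nq_smul, map_mul] at h5
    have ha' : 0 < Complex.normSq a := Complex.normSq_pos.2 ha
    have hb' : 0 < Complex.normSq b := Complex.normSq_pos.2 hb
    have hab : 0 < Complex.normSq a * Complex.normSq b := mul_pos ha' hb'
    have h6 : (Complex.normSq a * Complex.normSq b) * (m * (nq v * nq w)) ≤
        (Complex.normSq a * Complex.normSq b) * nq (crs v w) := by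
      calc _ = m * (Complex.normSq a * nq v * (Complex.normSq b * nq w)) := by ring
        _ ≤ _ := h5
    have h7 : m * (nq v * nq w) ≤ nq (crs v w) := le_of_mul_le_mul_left h6 hab
    have h8 : min 1 (Real.sqrt m) ^ 2 ≤ m := by
      calc min 1 (Real.sqrt m) ^ 2 ≤ Real.sqrt m ^ 2 :=
            pow_le_pow_left₀ (le_min zero_le_one (Real.sqrt_nonneg m)) (min_le_right _ _) 2
        _ = m := Real.sq_sqrt hm0.le
    exact (mul_le_mul_of_nonneg_right h8
      (mul_nonneg (INT_nq_nonneg v) (INT_nq_nonneg w))).trans h7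
  · refine ⟨1, one_pos, le_refl 1, ?_⟩
    intro v hv w hw
    obtain ⟨a, b, ha, hb, hmem⟩ := hscale v hv w hw
    exact absurd ⟨_, hmem⟩ hne

/-! ### Discs -/

theorem INT_disc (hUN1 : UN1_stmt) (hMSS : MSS_stmt) (d : ℕ) (f : Endo 2 d) (U : Set (PP 2))
    (hd : 2 ≤ d) (hG : Good0 f U) (φ : ℂ → E3) (hφ : Dsc U φ) (ρ : ℝ) (hρ : 4 / 5 < ρ) (hρ1 : ρ < 1) :
    ∃ M : ℝ, 1 ≤ M ∧ ∀ n : ℕ,
      (∀ z ∈ ball (0 : ℂ) 1, |(1 / 2) * Real.log (nq (It f n (φ (ρ • z))))| ≤ M * (d : ℝ) ^ n) ∧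
      |(∫ z, lap (fun z : ℂ => eta (ρ • z) ^ 2) z * ((1 / 2) * Real.log (nq (It f n (φ (ρ • z)))))) -
        (d : ℝ) ^ n * mass f n φ| ≤ M := by
  have hρ0 : 0 < ρ := by linarith
  obtain ⟨C, hC, -, hu2, hu3, hu4⟩ := hUN1 d f U hd hG
  have hd1 : (1 : ℝ) ≤ (d : ℝ) := by exact_mod_cast (by omega : 1 ≤ d)
  have hmem : ∀ z ∈ closedBall (0 : ℂ) 1, ρ • z ∈ ball (0 : ℂ) 1 := by
    intro z hz
    rw [mem_closedBall_zero_iff] at hz
    rw [mem_ball_zero_iff, norm_smul, Real.norm_of_nonneg hρ0.le]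
    nlinarith [norm_nonneg z]
  have hcU : cone U ⊆ cone (closure U) := fun x hx => ⟨hx.1, subset_closure hx.2⟩
  have hφc : ContinuousOn (fun z : ℂ => φ (ρ • z)) (closedBall 0 1) :=
    hφ.1.continuousOn.comp (continuous_const_smul ρ).continuousOn fun z hz => hmem z hz
  have hφne : ∀ z ∈ closedBall (0 : ℂ) 1, φ (ρ • z) ≠ 0 := fun z hz => (hφ.2 _ (hmem z hz)).1
  have hlogc : ContinuousOn (fun z : ℂ => (1 / 2) * Real.log (nq (φ (ρ • z)))) (closedBall 0 1) :=
    continuousOn_const.mul (((INT_nq_smooth 3).continuous.comp_continuousOn hφc).log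
      fun z hz => (INT_nq_pos (hφne z hz)).ne')
  obtain ⟨M0, hM0⟩ := (isCompact_closedBall (0 : ℂ) 1).exists_bound_of_continuousOn hlogc
  have hM00 : 0 ≤ M0 := (norm_nonneg _).trans (hM0 0 (mem_closedBall_self zero_le_one))
  set χ : ℂ → ℝ := fun z : ℂ => eta (ρ • z) ^ 2 with hχdef
  have hη2 : ContDiff ℝ ∞ (fun z : ℂ => eta z ^ 2) := INT_eta_smooth.pow 2
  have hχ : ContDiff ℝ ∞ χ := hη2.comp (contDiff_const_smul ρ)
  have hχs : tsupport χ ⊆ ball 0 1 := INT_eta_supp ρ hρ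
  have hη2s : tsupport (fun z : ℂ => eta z ^ 2) ⊆ ball 0 1 := by
    have h1 := INT_eta_supp 1 (by norm_num)
    have h2 : (fun z : ℂ => eta ((1 : ℝ) • z) ^ 2) = fun z : ℂ => eta z ^ 2 := by
      funext z
      rw [one_smul]
    rwa [h2] at h1
  have hlapc : Continuous (lap χ) := INT_lap_cont χ hχ
  have hlaps : tsupport (lap χ) ⊆ ball 0 1 := (INT_tsupp_lap χ).trans hχs
  have hlapcs : HasCompactSupport (lap χ) := INT_compact _ hlaps
  set I1 : ℝ := ∫ z, |lap χ z| with hI1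
  have hI10 : 0 ≤ I1 := integral_nonneg fun z => abs_nonneg _
  have hball : ∀ z ∈ ball (0 : ℂ) 1, φ (ρ • z) ∈ cone (closure U) := fun z hz =>
    hcU (hφ.2 _ (hmem z (ball_subset_closedBall hz)))
  refine ⟨2 * C + M0 + C * I1 + 1, by nlinarith [mul_nonneg hC.le hI10], ?_⟩
  intro n
  have hdn : (1 : ℝ) ≤ (d : ℝ) ^ n := one_le_pow₀ hd1
  constructor
  · intro z hz
    have h1 := hu4 n _ (hball z hz)
    have h2 := hu2 n _ (hball z hz)
    have h3 : |(1 / 2) * Real.log (nq (φ (ρ • z)))| ≤ M0 := hM0 z (ball_subset_closedBall hz)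
    have h4 : |un f n (φ (ρ • z))| ≤ C + M0 := by
      calc |un f n (φ (ρ • z))| = |(un f n (φ (ρ • z)) - (1 / 2) * Real.log (nq (φ (ρ • z)))) +
            (1 / 2) * Real.log (nq (φ (ρ • z)))| := by ring_nf
        _ ≤ _ := abs_add_le _ _
        _ ≤ C + M0 := add_le_add h2 h3
    have h5 : |(d : ℝ) ^ n * un f n (φ (ρ • z))| ≤ (d : ℝ) ^ n * (C + M0) := by
      rw [abs_mul, abs_of_nonneg (by positivity)]
      exact mul_le_mul_of_nonneg_left h4 (by positivity)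
    calc |(1 / 2) * Real.log (nq (It f n (φ (ρ • z))))|
        = |((1 / 2) * Real.log (nq (It f n (φ (ρ • z)))) - (d : ℝ) ^ n * un f n (φ (ρ • z))) +
            (d : ℝ) ^ n * un f n (φ (ρ • z))| := by ring_nf
      _ ≤ _ := abs_add_le _ _
      _ ≤ C + (d : ℝ) ^ n * (C + M0) := add_le_add h1 h5
      _ ≤ C * (d : ℝ) ^ n + (d : ℝ) ^ n * (C + M0) := by nlinarith
      _ ≤ (2 * C + M0 + C * I1 + 1) * (d : ℝ) ^ n := by nlinarith [mul_nonneg hC.le hI10]
  · have hm : mass f n φ = ∫ z, lap χ z * un f n (φ (ρ • z)) := by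
      have h1 := (hMSS d f U hd hG φ hφ n).2 (fun z : ℂ => eta z ^ 2) hη2 hη2s
      unfold mass
      rw [h1, ← INT_integral_scale _ ρ hρ0]
      refine integral_congr_ae (Eventually.of_forall fun z => ?_)
      show ρ ^ 2 * (lap (fun z : ℂ => eta z ^ 2) (ρ • z) * un f n (φ (ρ • z))) =
        lap χ z * un f n (φ (ρ • z))
      rw [hχdef, INT_lap_scale (fun z : ℂ => eta z ^ 2) hη2 ρ z]
      ring
    have hIt : ContinuousOn (fun z : ℂ => It f n (φ (ρ • z))) (ball 0 1) :=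
      (INT_It_diff f n).continuous.comp_continuousOn (hφc.mono ball_subset_closedBall)
    have ha : ContinuousOn (fun z : ℂ => (1 / 2) * Real.log (nq (It f n (φ (ρ • z))))) (ball 0 1) :=
      continuousOn_const.mul (((INT_nq_smooth 3).continuous.comp_continuousOn hIt).log
        fun z hz => (INT_nq_pos (INT_It_ne f n (hball z hz).1)).ne')
    have hpq : Continuous pq := by
      unfold pq
      exact (Complex.continuous_normSq.comp (continuous_apply 0)).add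
        (Complex.continuous_normSq.comp (continuous_apply 1))
    have hu : ContinuousOn (fun z : ℂ => un f n (φ (ρ • z))) (ball 0 1) := by
      unfold un
      refine ContinuousOn.div_const ?_ _
      exact continuousOn_const.mul ((hpq.comp_continuousOn hIt).log
        fun z hz => (hu3 n _ (hball z hz)).1.ne')
    have i1 : Integrable (fun z => lap χ z * ((1 / 2) * Real.log (nq (It f n (φ (ρ • z)))))) :=
      INT_integrable volume (ball 0 1) (lap χ) _ hlapc.continuousOn hlapcs hlaps ha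
    have i2 : Integrable (fun z => lap χ z * un f n (φ (ρ • z))) :=
      INT_integrable volume (ball 0 1) (lap χ) _ hlapc.continuousOn hlapcs hlaps hu
    have i3 : Integrable (fun z => |lap χ z|) := (hlapc.integrable_of_hasCompactSupport hlapcs).abs
    have h6 : |(∫ z, lap χ z * ((1 / 2) * Real.log (nq (It f n (φ (ρ • z)))))) -
        (d : ℝ) ^ n * mass f n φ| ≤ C * I1 := by
      rw [hm, ← integral_const_mul, ← integral_sub i1 (i2.const_mul _), hI1, ← integral_const_mul]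
      refine (abs_integral_le_integral_abs).trans ?_
      refine integral_mono (i1.sub (i2.const_mul _)).abs (i3.const_mul C) fun z => ?_
      show |lap χ z * ((1 / 2) * Real.log (nq (It f n (φ (ρ • z))))) -
        (d : ℝ) ^ n * (lap χ z * un f n (φ (ρ • z)))| ≤ C * |lap χ z|
      by_cases hz : z ∈ ball (0 : ℂ) 1
      · rw [show lap χ z * ((1 / 2) * Real.log (nq (It f n (φ (ρ • z))))) -
          (d : ℝ) ^ n * (lap χ z * un f n (φ (ρ • z))) = lap χ z *
          ((1 / 2) * Real.log (nq (It f n (φ (ρ • z)))) - (d : ℝ) ^ n * un f n (φ (ρ • z))) by ring,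
          abs_mul, mul_comm C]
        exact mul_le_mul_of_nonneg_left (hu4 n _ (hball z hz)) (abs_nonneg _)
      · have h4 : lap χ z = 0 := image_eq_zero_of_notMem_tsupport (fun h => hz (hlaps h))
        rw [h4]
        simp
    linarith

theorem INT (hUN1 : UN1_stmt) (hMSS : MSS_stmt) (hINTA : INTA_stmt) (hINTB : INTB_stmt) :
    INT_stmt := by
  intro d f U V hd hU hV hcU hcV
  by_contra hcon
  rw [not_nonempty_iff_eq_empty] at hcon
  obtain ⟨φ, hφ, c1, hc1, hφm⟩ := hcU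
  obtain ⟨ψ, hψ, c2, hc2, hψm⟩ := hcV
  -- the separated compact sets
  have hA : IsClosed (f.map '' closure U) := (isClosed_closure.isCompact.image (map_cont f)).isClosed
  have hB : IsClosed (f.map '' closure V) := (isClosed_closure.isCompact.image (map_cont f)).isClosed
  have hAB : (f.map '' closure U) ∩ (f.map '' closure V) = ∅ := by
    apply Subset.antisymm _ (empty_subset _)
    rw [← hcon]
    exact inter_subset_inter hU.1.2.2 hV.1.2.2
  obtain ⟨s, hs0, hs1, hsep⟩ := INT_sep hA hB hAB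
  set ρ : ℝ := 9 / 10 with hρ
  have hρ1 : 4 / 5 < ρ := by norm_num [hρ]
  have hρ2 : ρ < 1 := by norm_num [hρ]
  have hρ0 : 0 < ρ := by norm_num [hρ]
  have hη2 : ContDiff ℝ ∞ (fun z : ℂ => eta z ^ 2) := INT_eta_smooth.pow 2
  have hχ : ContDiff ℝ ∞ (fun z : ℂ => eta (ρ • z) ^ 2) := hη2.comp (contDiff_const_smul ρ)
  obtain ⟨C, hC, hstat⟩ := INT_static hINTA hINTB (fun z : ℂ => eta (ρ • z) ^ 2) hχ
    (INT_eta_supp ρ hρ1) (fun z => sq_nonneg _) s hs0 hs1
  obtain ⟨M1, hM1, h1⟩ := INT_disc hUN1 hMSS d f U hd hU φ hφ ρ hρ1 hρ2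
  obtain ⟨M2, hM2, h2⟩ := INT_disc hUN1 hMSS d f V hd hV ψ hψ ρ hρ1 hρ2
  set M : ℝ := max M1 M2 with hM
  have hM0 : 1 ≤ M := hM1.trans (le_max_left _ _)
  have hd1 : (1 : ℝ) < (d : ℝ) := by exact_mod_cast (by omega : 1 < d)
  have hbig : ∀ᶠ n : ℕ in atTop, 2 * M / c1 + 2 * M / c2 + 4 * C * M / (c1 * c2) < (d : ℝ) ^ n :=
    (tendsto_pow_atTop_atTop_of_one_lt hd1).eventually_gt_atTop _
  obtain ⟨n, hn1, hn2, hn3, hn4⟩ := (hbig.and (hφm.and (hψm.and (eventually_ge_atTop 1)))).exists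
  obtain ⟨b1, m1⟩ := h1 n
  obtain ⟨b2, m2⟩ := h2 n
  have hmem : ∀ z ∈ ball (0 : ℂ) 1, ρ • z ∈ ball (0 : ℂ) 1 := by
    intro z hz
    rw [mem_ball_zero_iff] at hz
    rw [mem_ball_zero_iff, norm_smul, Real.norm_of_nonneg hρ0.le]
    nlinarith [norm_nonneg z]
  have hdn : (1 : ℝ) ≤ (d : ℝ) ^ n := one_le_pow₀ hd1.le
  have hsm : Differentiable ℂ (fun z : ℂ => ρ • z) := by
    have h3 : (fun z : ℂ => ρ • z) = fun z : ℂ => (ρ : ℂ) * z := by
      funext z
      rw [Complex.real_smul]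
    rw [h3]
    exact (differentiable_const _).mul differentiable_id
  have hfin := hstat (fun z => It f n (φ (ρ • z))) (fun z => It f n (ψ (ρ • z))) (M * (d : ℝ) ^ n)
    (by nlinarith)
    ((INT_It_diff f n).comp_differentiableOn
      (hφ.1.comp hsm.differentiableOn fun z hz => hmem z hz))
    ((INT_It_diff f n).comp_differentiableOn
      (hψ.1.comp hsm.differentiableOn fun z hz => hmem z hz))
    (fun z hz => INT_It_ne f n (hφ.2 _ (hmem z hz)).1)
    (fun z hz => INT_It_ne f n (hψ.2 _ (hmem z hz)).1)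
    (fun z hz => (b1 z hz).trans
      (mul_le_mul_of_nonneg_right (le_max_left _ _) (by positivity)))
    (fun z hz => (b2 z hz).trans
      (mul_le_mul_of_nonneg_right (le_max_right _ _) (by positivity)))
    (fun z hz z' hz' => hsep _ (INT_It_cone f U hU.1 n hn4 (hφ.2 _ (hmem z hz))) _
      (INT_It_cone f V hV.1 n hn4 (hψ.2 _ (hmem z' hz'))))
  set α : ℝ := ∫ z, lap (fun z : ℂ => eta (ρ • z) ^ 2) z *
    ((1 / 2) * Real.log (nq (It f n (φ (ρ • z))))) with hα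
  set β : ℝ := ∫ z, lap (fun z : ℂ => eta (ρ • z) ^ 2) z *
    ((1 / 2) * Real.log (nq (It f n (ψ (ρ • z))))) with hβ
  set x : ℝ := (d : ℝ) ^ n with hx
  have hx0 : 0 < x := by linarith
  rw [abs_le] at m1 m2
  have t1 : 0 ≤ 2 * M / c1 := by positivity
  have t2 : 0 ≤ 2 * M / c2 := by positivity
  have t3 : 0 ≤ 4 * C * M / (c1 * c2) := by positivity
  have hα1 : c1 * x / 2 ≤ α := by
    have h3 : c1 * x ≤ x * mass f n φ := by
      rw [mul_comm c1]
      exact mul_le_mul_of_nonneg_left hn2 hx0.le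
    have h4 : 2 * M / c1 < x := by linarith
    rw [div_lt_iff₀ hc1] at h4
    have h5 : M1 ≤ M := le_max_left _ _
    linarith [m1.1]
  have hβ1 : c2 * x / 2 ≤ β := by
    have h3 : c2 * x ≤ x * mass f n ψ := by
      rw [mul_comm c2]
      exact mul_le_mul_of_nonneg_left hn3 hx0.le
    have h4 : 2 * M / c2 < x := by linarith
    rw [div_lt_iff₀ hc2] at h4
    have h5 : M2 ≤ M := le_max_right _ _
    linarith [m2.1]
  have h6 : (c1 * x / 2) * (c2 * x / 2) ≤ α * β :=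
    mul_le_mul hα1 hβ1 (by positivity) (le_trans (by positivity) hα1)
  have h7 : 4 * C * M / (c1 * c2) < x := by linarith
  rw [div_lt_iff₀ (by positivity)] at h7
  have h8 : (4 * C * M) * x < (x * (c1 * c2)) * x := mul_lt_mul_of_pos_right h7 hx0
  nlinarith

end Pool.Agent.P2
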